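import Mathlib
import Pool.Agent.L7h11.UM.Lang

/-!
# The compiler of the array language to the word RAM
-/

set_option autoImplicit false

namespace Pool.Agent.L7h53.UM

open Pool.Agent.L7h11.UM Pool.Agent.H588R2

theorem ok_lt {N W : ℕ} : ∀ {e : Ex} {s : S}, e.ok N W s → e.ev s < W := by
  intro e
  induction e with
  | c k => intro s h; exact h
  | v x => intro s h; exact h
  | get q i _ => intro s h; exact h.2.2.2
  | add a b _ _ => intro s h; exact h.2.2
  | sub a b iha _ => intro s h; exact lt_of_le_of_lt (Nat.sub_le _ _) (iha h.1)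
  | ifLt a b t e _ _ iht ihe =>
    intro s h
    simp only [Ex.ev]
    split_ifs with h'
    · exact iht (h.2.2.1 h')
    · exact ihe (h.2.2.2 h')

/-- Strict bound for the numbers of the variables and arrays. -/
def ebd : Ex → ℕ
  | .c _ => 0
  | .v x => x + 1
  | .get q i => max (q + 1) (ebd i)
  | .add a b => max (ebd a) (ebd b)
  | .sub a b => max (ebd a) (ebd b)
  | .ifLt a b t e => max (max (ebd a) (ebd b)) (max (ebd t) (ebd e))

def cbd : Cm → ℕ
  | .skip => 0
  | .set x e => max (x + 1) (ebd e)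
  | .put q i e => max (q + 1) (max (ebd i) (ebd e))
  | .seq a b => max (cbd a) (cbd b)
  | .ite a b c d => max (max (ebd a) (ebd b)) (max (cbd c) (cbd d))
  | .loop a b c => max (max (ebd a) (ebd b)) (cbd c)

/-- Code for an expression, with the value in the register `d`, using the registers `≥ d`. -/
def ecode (V : ℕ) : Ex → ℕ → Cmd
  | .c k, d => .op (.const d k)
  | .v x, d => .op (.add d x (V + 1))
  | .get q i, d => .seq (ecode V i d) (.seq (.op (.const (d + 1) q))
      (.seq (.op (.mul (d + 1) (d + 1) V)) (.seq (.op (.add d d (d + 1))) (.op (.load d d)))))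
  | .add a b, d => .seq (ecode V a d) (.seq (ecode V b (d + 1)) (.op (.add d d (d + 1))))
  | .sub a b, d => .seq (ecode V a d) (.seq (ecode V b (d + 1)) (.op (.sub d d (d + 1))))
  | .ifLt a b t e, d => .seq (ecode V a d) (.seq (ecode V b (d + 1))
      (.ite d (d + 1) (ecode V t d) (ecode V e d)))

/-- Time for an expression. -/
def ecost : Ex → ℕ
  | .c _ => 1
  | .v _ => 1
  | .get _ i => ecost i + 4
  | .add a b => ecost a + ecost b + 1
  | .sub a b => ecost a + ecost b + 1
  | .ifLt a b t e => ecost a + ecost b + ecost t + ecost e + 2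

def ccode (V : ℕ) : Cm → Cmd
  | .skip => .skip
  | .set x e => .seq (ecode V e (V + 2)) (.op (.add x (V + 2) (V + 1)))
  | .put q i e => .seq (ecode V i (V + 2)) (.seq (ecode V e (V + 3))
      (.seq (.op (.const (V + 4) q)) (.seq (.op (.mul (V + 4) (V + 4) V))
        (.seq (.op (.add (V + 2) (V + 2) (V + 4))) (.op (.store (V + 2) (V + 3)))))))
  | .seq a b => .seq (ccode V a) (ccode V b)
  | .ite a b c d => .seq (.seq (ecode V a (V + 2)) (ecode V b (V + 3)))
      (.ite (V + 2) (V + 3) (ccode V c) (ccode V d))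
  | .loop a b c => .seq (.seq (ecode V a (V + 2)) (ecode V b (V + 3)))
      (.loop (V + 2) (V + 3) (.seq (ccode V c) (.seq (ecode V a (V + 2)) (ecode V b (V + 3)))))

def ccost : Cm → ℕ
  | .skip => 0
  | .set _ e => ecost e + 1
  | .put _ i e => ecost i + ecost e + 4
  | .seq a b => ccost a + ccost b
  | .ite a b c d => ecost a + ecost b + 2 + ccost c + ccost d
  | .loop a b c => ecost a + ecost b + 2 + ccost c

/-- The machine state `σ` represents `s`. -/
structure Rel (V M : ℕ) (s : S) (σ : St) : Prop where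
  reg : ∀ x < V, σ.reg x = s.var x
  base : σ.reg V = M
  zero : σ.reg (V + 1) = 0
  mem : ∀ q < V, ∀ i < M, σ.mem (q * M + i) = s.arr q i

theorem Rel.congr {V M : ℕ} {s : S} {σ σ' : St} (h : Rel V M s σ) {d : ℕ} (hd : V + 2 ≤ d)
    (h1 : ∀ x < d, σ'.reg x = σ.reg x) (h2 : σ'.mem = σ.mem) : Rel V M s σ' :=
  ⟨fun x hx => by rw [h1 x (by omega)]; exact h.reg x hx,
    by rw [h1 V (by omega)]; exact h.base,
    by rw [h1 (V + 1) (by omega)]; exact h.zero,
    fun q hq i hi => by rw [h2]; exact h.mem q hq i hi⟩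

theorem set_lt {σ : St} {d v x : ℕ} (h : x < d) : (σ.set d v).reg x = σ.reg x :=
  St.set_reg_ne _ _ (by omega)

theorem addr_lt {V M q i w : ℕ} (hq : q < V) (hi : i < M) (h : V * M ≤ 2 ^ w) :
    q * M + i < 2 ^ w := by
  have : (q + 1) * M ≤ V * M := Nat.mul_le_mul_right _ hq
  nlinarith

theorem run_ecode {V M w : ℕ} (hVM : V * M ≤ 2 ^ w) {s : S} : ∀ (e : Ex) (d : ℕ) (σ : St),
    V + 2 ≤ d → ebd e ≤ V → e.ok M (2 ^ w) s → Rel V M s σ →
    Runs w (ecode V e d) σ (fun σ' t => σ'.reg d = e.ev s ∧ (∀ x < d, σ'.reg x = σ.reg x) ∧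
      σ'.mem = σ.mem ∧ t ≤ ecost e) := by
  intro e
  induction e with
  | c k =>
    intro d σ hd _ hok hR
    apply Runs.const hok
    refine ⟨by simp [Ex.ev], fun x hx => set_lt hx, rfl, le_rfl⟩
  | v x =>
    intro d σ hd hb hok hR
    have hb' : x < V := hb
    have e1 : σ.reg x = s.var x := hR.reg x hb'
    have e2 := hR.zero
    apply Runs.add
    · rw [e1, e2, Nat.add_zero]; exact hok
    · refine ⟨by simp [Ex.ev, e1, e2], fun x hx => set_lt hx, rfl, le_rfl⟩
  | get q i ih =>
    intro d σ hd hb hok hR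
    obtain ⟨h1, h2, h3, h4⟩ := hok
    have hb1 : q < V := lt_of_lt_of_le (Nat.lt_succ_self q) ((le_max_left _ _).trans hb)
    have hb2 : ebd i ≤ V := (le_max_right _ _).trans hb
    apply Runs.seq
    refine (ih d σ hd hb2 h1 hR).mono ?_
    rintro σ1 t1 ⟨e1, f1, g1, c1⟩
    apply Runs.seq
    have hq2 : q < 2 ^ w := by
      have := addr_lt (V := V) (M := M) (w := w) hb1 h2 hVM
      rcases Nat.eq_zero_or_pos M with h0 | h0
      · omega
      · nlinarith
    apply Runs.const hq2
    apply Runs.seq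
    have hV1 : (σ1.set (d + 1) q).reg V = M := by
      rw [set_lt (by omega), f1 V (by omega)]; exact hR.base
    have hqM : q * M < 2 ^ w := by
      have := addr_lt (V := V) (M := M) (w := w) hb1 h2 hVM
      omega
    apply Runs.mul
    · rw [St.set_reg_self, hV1]; exact hqM
    rw [St.set_reg_self, hV1]
    apply Runs.seq
    have e3 : (((σ1.set (d + 1) q).set (d + 1) (q * M)).reg d) = i.ev s := by
      rw [set_lt (by omega), set_lt (by omega), e1]
    have e4 : (((σ1.set (d + 1) q).set (d + 1) (q * M)).reg (d + 1)) = q * M := by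
      rw [St.set_reg_self]
    have hA := addr_lt (V := V) (M := M) (w := w) hb1 h2 hVM
    apply Runs.add
    · rw [e3, e4]; omega
    rw [e3, e4]
    have e5 : i.ev s + q * M = q * M + i.ev s := Nat.add_comm _ _
    have e6 : σ1.mem (q * M + i.ev s) = s.arr q (i.ev s) := by
      rw [g1]; exact hR.mem q hb1 _ h2
    apply Runs.load
    · simp only [St.set_reg_self, St.set_mem]
      rw [e5, e6]; exact h4
    · simp only [St.set_reg_self, St.set_mem]
      rw [e5, e6]
      refine ⟨by simp [Ex.ev], fun x hx => ?_, ?_, ?_⟩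
      · rw [set_lt hx, set_lt hx, set_lt (by omega), set_lt (by omega)]; exact f1 x hx
      · exact g1
      · simp only [ecost]; omega
  | add a b iha ihb =>
    intro d σ hd hb hok hR
    obtain ⟨h1, h2, h3⟩ := hok
    have hb1 : ebd a ≤ V := (le_max_left _ _).trans hb
    have hb2 : ebd b ≤ V := (le_max_right _ _).trans hb
    apply Runs.seq
    refine (iha d σ hd hb1 h1 hR).mono ?_
    rintro σ1 t1 ⟨e1, f1, g1, c1⟩
    apply Runs.seq
    refine (ihb (d + 1) σ1 (by omega) hb2 h2 (hR.congr hd f1 g1)).mono ?_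
    rintro σ2 t2 ⟨e2, f2, g2, c2⟩
    have e3 : σ2.reg d = a.ev s := by rw [f2 d (by omega), e1]
    apply Runs.add
    · rw [e3, e2]; exact h3
    · rw [e3, e2]
      refine ⟨by simp [Ex.ev], fun x hx => ?_, ?_, ?_⟩
      · rw [set_lt hx, f2 x (by omega), f1 x hx]
      · rw [St.set_mem, g2, g1]
      · simp only [ecost]; omega
  | sub a b iha ihb =>
    intro d σ hd hb hok hR
    obtain ⟨h1, h2⟩ := hok
    have h3 := ok_lt h1
    have hb1 : ebd a ≤ V := (le_max_left _ _).trans hb
    have hb2 : ebd b ≤ V := (le_max_right _ _).trans hb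
    apply Runs.seq
    refine (iha d σ hd hb1 h1 hR).mono ?_
    rintro σ1 t1 ⟨e1, f1, g1, c1⟩
    apply Runs.seq
    refine (ihb (d + 1) σ1 (by omega) hb2 h2 (hR.congr hd f1 g1)).mono ?_
    rintro σ2 t2 ⟨e2, f2, g2, c2⟩
    have e3 : σ2.reg d = a.ev s := by rw [f2 d (by omega), e1]
    apply Runs.sub
    · rw [e3, e2]; exact lt_of_le_of_lt (Nat.sub_le _ _) h3
    · rw [e3, e2]
      refine ⟨by simp [Ex.ev], fun x hx => ?_, ?_, ?_⟩
      · rw [set_lt hx, f2 x (by omega), f1 x hx]
      · rw [St.set_mem, g2, g1]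
      · simp only [ecost]; omega
  | ifLt a b t e iha ihb iht ihe =>
    intro d σ hd hb hok hR
    obtain ⟨h1, h2, h3, h4⟩ := hok
    have hb1 : ebd a ≤ V := (le_max_left _ _).trans ((le_max_left _ _).trans hb)
    have hb2 : ebd b ≤ V := (le_max_right _ _).trans ((le_max_left _ _).trans hb)
    have hb3 : ebd t ≤ V := (le_max_left _ _).trans ((le_max_right _ _).trans hb)
    have hb4 : ebd e ≤ V := (le_max_right _ _).trans ((le_max_right _ _).trans hb)
    apply Runs.seq
    refine (iha d σ hd hb1 h1 hR).mono ?_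
    rintro σ1 t1 ⟨e1, f1, g1, c1⟩
    apply Runs.seq
    refine (ihb (d + 1) σ1 (by omega) hb2 h2 (hR.congr hd f1 g1)).mono ?_
    rintro σ2 t2 ⟨e2, f2, g2, c2⟩
    have e3 : σ2.reg d = a.ev s := by rw [f2 d (by omega), e1]
    have f3 : ∀ x < d, σ2.reg x = σ.reg x := fun x hx => by rw [f2 x (by omega), f1 x hx]
    have g3 : σ2.mem = σ.mem := by rw [g2, g1]
    apply Runs.ite
    · intro h
      rw [e3, e2] at h
      refine (iht d σ2 hd hb3 (h3 h) (hR.congr hd f3 g3)).mono ?_
      rintro σ3 t3 ⟨e4, f4, g4, c4⟩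
      refine ⟨by simp [Ex.ev, h, e4], fun x hx => ?_, ?_, ?_⟩
      · rw [f4 x hx, f3 x hx]
      · rw [g4, g3]
      · simp only [ecost]; omega
    · intro h
      rw [e3, e2] at h
      refine (ihe d σ2 hd hb4 (h4 h) (hR.congr hd f3 g3)).mono ?_
      rintro σ3 t3 ⟨e4, f4, g4, c4⟩
      refine ⟨by simp [Ex.ev, h, e4], fun x hx => ?_, ?_, ?_⟩
      · rw [f4 x hx, f3 x hx]
      · rw [g4, g3]
      · simp only [ecost]; omega

/-- Evaluation of two expressions. -/
theorem run_two {V M w : ℕ} (hVM : V * M ≤ 2 ^ w) {s : S} {a b : Ex} {σ : St}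
    (ha : ebd a ≤ V) (hb : ebd b ≤ V) (oa : a.ok M (2 ^ w) s) (ob : b.ok M (2 ^ w) s)
    (hR : Rel V M s σ) :
    Runs w (.seq (ecode V a (V + 2)) (ecode V b (V + 3))) σ (fun σ' t =>
      σ'.reg (V + 2) = a.ev s ∧ σ'.reg (V + 3) = b.ev s ∧ Rel V M s σ' ∧
        t ≤ ecost a + ecost b) := by
  apply Runs.seq
  refine (run_ecode hVM a (V + 2) σ le_rfl ha oa hR).mono ?_
  rintro σ1 t1 ⟨e1, f1, g1, c1⟩
  refine (run_ecode hVM b (V + 3) σ1 (by omega) hb ob (hR.congr le_rfl f1 g1)).mono ?_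
  rintro σ2 t2 ⟨e2, f2, g2, c2⟩
  refine ⟨?_, e2, (hR.congr le_rfl f1 g1).congr (by omega) f2 g2, by omega⟩
  rw [f2 _ (by omega), e1]

theorem addr_inj {M q q' i i' : ℕ} (hi : i < M) (hi' : i' < M)
    (h : q * M + i = q' * M + i') : q = q' ∧ i = i' := by
  have h1 : (q * M + i) % M = i := by
    rw [Nat.mul_add_mod_of_lt hi]
  have h2 : (q' * M + i') % M = i' := by
    rw [Nat.mul_add_mod_of_lt hi']
  have h3 : i = i' := by rw [← h1, ← h2, h]
  have h4 : q * M = q' * M := by omega
  exact ⟨Nat.eq_of_mul_eq_mul_right (by omega) h4, h3⟩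

theorem run_ccode {V M w : ℕ} (hVM : V * M ≤ 2 ^ w) {c : Cm} {s s' : S} {t : ℕ}
    (h : Run M (2 ^ w) c s s' t) : cbd c ≤ V → ∀ σ : St, Rel V M s σ →
    Runs w (ccode V c) σ (fun σ' t' => Rel V M s' σ' ∧ t' ≤ ccost c * t) := by
  induction h with
  | skip s => intro _ σ hR; exact Runs.skip ⟨hR, by simp⟩
  | set x e s he =>
    intro hb σ hR
    have hb1 : x < V := lt_of_lt_of_le (Nat.lt_succ_self x) ((le_max_left _ _).trans hb)
    have hb2 : ebd e ≤ V := (le_max_right _ _).trans hb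
    apply Runs.seq
    refine (run_ecode hVM e (V + 2) σ le_rfl hb2 he hR).mono ?_
    rintro σ1 t1 ⟨e1, f1, g1, c1⟩
    have hR1 := hR.congr le_rfl f1 g1
    apply Runs.add
    · rw [e1, hR1.zero, Nat.add_zero]; exact ok_lt he
    · rw [e1, hR1.zero, Nat.add_zero]
      refine ⟨⟨fun y hy => ?_, ?_, ?_, ?_⟩, ?_⟩
      · by_cases hxy : y = x
        · subst hxy; simp [S.setV]
        · rw [St.set_reg_ne _ _ hxy, hR1.reg y hy]
          simp [S.setV, Function.update_of_ne hxy]
      · rw [St.set_reg_ne _ _ (by omega)]; exact hR1.base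
      · rw [St.set_reg_ne _ _ (by omega)]; exact hR1.zero
      · exact hR1.mem
      · simp only [ccost]; omega
  | put q i e s hi hN hW he heW =>
    intro hb σ hR
    have hb1 : q < V := lt_of_lt_of_le (Nat.lt_succ_self q) ((le_max_left _ _).trans hb)
    have hb2 : ebd i ≤ V := (le_max_left _ _).trans ((le_max_right _ _).trans hb)
    have hb3 : ebd e ≤ V := (le_max_right _ _).trans ((le_max_right _ _).trans hb)
    apply Runs.seq
    refine (run_ecode hVM i (V + 2) σ le_rfl hb2 hi hR).mono ?_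
    rintro σ1 t1 ⟨e1, f1, g1, c1⟩
    have hR1 := hR.congr le_rfl f1 g1
    apply Runs.seq
    refine (run_ecode hVM e (V + 3) σ1 (by omega) hb3 he hR1).mono ?_
    rintro σ2 t2 ⟨e2, f2, g2, c2⟩
    have hR2 := hR1.congr (by omega : V + 2 ≤ V + 3) f2 g2
    have hA := addr_lt (V := V) (M := M) (w := w) hb1 hN hVM
    have hq2 : q < 2 ^ w := by
      rcases Nat.eq_zero_or_pos M with h0 | h0
      · omega
      · nlinarith
    apply Runs.seq
    apply Runs.const hq2
    apply Runs.seq
    have hV1 : (σ2.set (V + 4) q).reg V = M := by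
      rw [set_lt (by omega)]; exact hR2.base
    apply Runs.mul
    · rw [St.set_reg_self, hV1]; omega
    rw [St.set_reg_self, hV1]
    apply Runs.seq
    have e3 : (((σ2.set (V + 4) q).set (V + 4) (q * M)).reg (V + 2)) = i.ev s := by
      rw [set_lt (by omega), set_lt (by omega), f2 _ (by omega), e1]
    have e4 : (((σ2.set (V + 4) q).set (V + 4) (q * M)).reg (V + 4)) = q * M := by
      rw [St.set_reg_self]
    apply Runs.add
    · rw [e3, e4]; omega
    rw [e3, e4]
    apply Runs.op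
    set σ3 : St := ((σ2.set (V + 4) q).set (V + 4) (q * M)).set (V + 2) (i.ev s + q * M) with hσ3
    have e5 : σ3.reg (V + 3) = e.ev s := by
      rw [hσ3, St.set_reg_ne _ _ (by omega), set_lt (by omega), set_lt (by omega), e2]
    have e6 : σ3.reg (V + 2) = q * M + i.ev s := by
      rw [hσ3, St.set_reg_self, Nat.add_comm]
    have e7 : σ3.mem = σ2.mem := rfl
    have e8 : ∀ x < V + 2, σ3.reg x = σ2.reg x := fun x hx => by
      rw [hσ3, set_lt hx, set_lt (by omega), set_lt (by omega)]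
    refine ⟨⟨fun y hy => ?_, ?_, ?_, ?_⟩, ?_⟩
    · simp only [Op.exec, S.putA]
      rw [e8 y (by omega)]; exact hR2.reg y hy
    · simp only [Op.exec]
      rw [e8 V (by omega)]; exact hR2.base
    · simp only [Op.exec]
      rw [e8 (V + 1) (by omega)]; exact hR2.zero
    · intro q' hq' i' hi'
      simp only [Op.exec, S.putA]
      rw [e5, e6, e7]
      by_cases hqq : q' = q
      · subst hqq
        rw [Function.update_self]
        by_cases hii : i' = i.ev s
        · subst hii; simp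
        · rw [Function.update_of_ne hii, Function.update_of_ne (by omega)]
          exact hR2.mem q' hq' i' hi'
      · rw [Function.update_of_ne hqq, Function.update_of_ne]
        · exact hR2.mem q' hq' i' hi'
        · intro h
          exact hqq (addr_inj hi' hN h).1
    · simp only [ccost]; omega
  | @seq c₁ c₂ s s' s'' t t' _ _ ih1 ih2 =>
    intro hb σ hR
    have hb1 : cbd c₁ ≤ V := (le_max_left _ _).trans hb
    have hb2 : cbd c₂ ≤ V := (le_max_right _ _).trans hb
    apply Runs.seq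
    refine (ih1 hb1 σ hR).mono ?_
    rintro σ1 t1 ⟨h1, h2⟩
    refine (ih2 hb2 σ1 h1).mono ?_
    rintro σ2 t2 ⟨h3, h4⟩
    refine ⟨h3, ?_⟩
    simp only [ccost]
    nlinarith [Nat.zero_le (ccost c₂ * t), Nat.zero_le (ccost c₁ * t')]
  | @iteT a b c₁ c₂ s s' t ha hb' hlt _ ih =>
    intro hb σ hR
    have hb1 : ebd a ≤ V := (le_max_left _ _).trans ((le_max_left _ _).trans hb)
    have hb2 : ebd b ≤ V := (le_max_right _ _).trans ((le_max_left _ _).trans hb)
    have hb3 : cbd c₁ ≤ V := (le_max_left _ _).trans ((le_max_right _ _).trans hb)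
    apply Runs.seq
    refine (run_two hVM hb1 hb2 ha hb' hR).mono ?_
    rintro σ1 t1 ⟨e1, e2, hR1, c1⟩
    apply Runs.ite
    · intro _
      refine (ih hb3 σ1 hR1).mono ?_
      rintro σ2 t2 ⟨h3, h4⟩
      refine ⟨h3, ?_⟩
      simp only [ccost]
      nlinarith [Nat.zero_le (ccost c₂ * t), Nat.zero_le (ecost a * t), Nat.zero_le (ecost b * t),
        Nat.zero_le (ccost c₁), Nat.zero_le (ccost c₂), Nat.zero_le t]
    · intro h
      rw [e1, e2] at h
      exact absurd hlt h
  | @iteF a b c₁ c₂ s s' t ha hb' hlt _ ih =>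
    intro hb σ hR
    have hb1 : ebd a ≤ V := (le_max_left _ _).trans ((le_max_left _ _).trans hb)
    have hb2 : ebd b ≤ V := (le_max_right _ _).trans ((le_max_left _ _).trans hb)
    have hb3 : cbd c₂ ≤ V := (le_max_right _ _).trans ((le_max_right _ _).trans hb)
    apply Runs.seq
    refine (run_two hVM hb1 hb2 ha hb' hR).mono ?_
    rintro σ1 t1 ⟨e1, e2, hR1, c1⟩
    apply Runs.ite
    · intro h
      rw [e1, e2] at h
      exact absurd h hlt
    · intro _
      refine (ih hb3 σ1 hR1).mono ?_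
      rintro σ2 t2 ⟨h3, h4⟩
      refine ⟨h3, ?_⟩
      simp only [ccost]
      nlinarith [Nat.zero_le (ccost c₁ * t), Nat.zero_le (ecost a * t), Nat.zero_le (ecost b * t),
        Nat.zero_le (ccost c₁), Nat.zero_le (ccost c₂), Nat.zero_le t]
  | @loopT a b c s s' s'' t t' ha hb' hlt _ _ ih1 ih2 =>
    intro hb σ hR
    have hb1 : ebd a ≤ V := (le_max_left _ _).trans ((le_max_left _ _).trans hb)
    have hb2 : ebd b ≤ V := (le_max_right _ _).trans ((le_max_left _ _).trans hb)
    have hb3 : cbd c ≤ V := (le_max_right _ _).trans hb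
    obtain ⟨σ1, t1, x1, e1, e2, hR1, c1⟩ := run_two hVM hb1 hb2 ha hb' hR
    obtain ⟨σ2, t2, x2, hR2, c2⟩ := ih1 hb3 σ1 hR1
    obtain ⟨σ4, t4, x4, hR4, c4⟩ := ih2 hb σ2 hR2
    simp only [ccode] at x4
    cases x4 with
    | @seq _ _ _ σ3 _ u u' x3 x5 =>
      refine ⟨σ4, _, .seq x1 (.loopTrue (by rw [e1, e2]; exact hlt) (.seq x2 x3) x5), hR4, ?_⟩
      simp only [ccost] at c4 ⊢
      nlinarith [Nat.zero_le (ecost a * t), Nat.zero_le (ecost b * t), Nat.zero_le (ccost c),
        Nat.zero_le t]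
  | @loopF a b c s ha hb' hlt =>
    intro hb σ hR
    have hb1 : ebd a ≤ V := (le_max_left _ _).trans ((le_max_left _ _).trans hb)
    have hb2 : ebd b ≤ V := (le_max_right _ _).trans ((le_max_left _ _).trans hb)
    obtain ⟨σ1, t1, x1, e1, e2, hR1, c1⟩ := run_two hVM hb1 hb2 ha hb' hR
    refine ⟨σ1, _, .seq x1 (.loopFalse (by rw [e1, e2]; exact hlt)), hR1, ?_⟩
    simp only [ccost]; omega

/-- The prologue. -/
def prol (V : ℕ) : Cmd :=
  .seq (.op (.const V 1)) (.seq (.op (.add V V 0)) (.seq (.op (.const (V + 2) 64))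
    (.op (.mul V V (V + 2)))))

theorem s_COMP : S_COMP := by
  intro c
  set V := cbd c + 1 with hV
  set K := ccost c with hK
  refine ⟨(Cmd.seq (prol V) (ccode V c)).compile 0, 64 * V + 65 + K + 10, ?_⟩
  intro n w mem hC hmem hmem0 s' t hrun
  have h64 : 64 * (n + 1) < 2 ^ w := by nlinarith
  have hn : n + 1 < 2 ^ w := by omega
  have hVM : V * (64 * (n + 1)) ≤ 2 ^ w := by nlinarith
  set σ0 : St := ⟨fun r => if r = 0 then n else 0, mem⟩ with hσ0
  have hV0 : 0 < V := by omega
  have hpro : Runs w (prol V) σ0 (fun σ τ => Rel V (64 * (n + 1)) (Init n mem) σ ∧ τ ≤ 4) := by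
    apply Runs.seq
    apply Runs.const (by omega)
    apply Runs.seq
    have a1 : (σ0.set V 1).reg V = 1 := by simp
    have a2 : (σ0.set V 1).reg 0 = n := by rw [set_lt hV0]; simp [hσ0]
    apply Runs.add
    · rw [a1, a2]; omega
    rw [a1, a2]
    apply Runs.seq
    apply Runs.const (by omega)
    set σ1 : St := ((σ0.set V 1).set V (1 + n)).set (V + 2) 64 with hσ1
    have a3 : σ1.reg V = 1 + n := by rw [hσ1, set_lt (by omega), St.set_reg_self]
    have a4 : σ1.reg (V + 2) = 64 := by rw [hσ1, St.set_reg_self]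
    apply Runs.mul
    · rw [a3, a4]; omega
    rw [a3, a4]
    refine ⟨⟨fun x hx => ?_, ?_, ?_, ?_⟩, by omega⟩
    · rw [set_lt hx, hσ1, set_lt (by omega), set_lt hx, set_lt hx]; rfl
    · rw [St.set_reg_self]; ring
    · rw [St.set_reg_ne _ _ (by omega), hσ1, set_lt (by omega), St.set_reg_ne _ _ (by omega),
        St.set_reg_ne _ _ (by omega)]
      simp [hσ0]
    · intro q hq i hi
      have e : ((σ1.set V ((1 + n) * 64)).mem) = mem := rfl
      rw [e]
      simp only [Init]
      by_cases hq0 : q = 0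
      · subst hq0; simp
      · rw [if_neg hq0]
        apply hmem0
        have : 1 * (64 * (n + 1)) ≤ q * (64 * (n + 1)) :=
          Nat.mul_le_mul_right _ (by omega)
        omega
  obtain ⟨σ1, t1, x1, hR1, c1⟩ := hpro
  obtain ⟨σ2, t2, x2, hR2, c2⟩ := run_ccode hVM hrun (by omega) σ1 hR1
  have hx := Exec.seq x1 x2
  have hAt : At ((Cmd.seq (prol V) (ccode V c)).compile 0) 0
      ((Cmd.seq (prol V) (ccode V c)).compile 0) := by
    intro i _; simp
  have hfin := compile_correct w _ hx 0 hAt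
  refine ⟨t1 + t2, ?_, ?_, ?_⟩
  · push_cast
    rw [← hK] at c2
    have c3' : t1 + t2 ≤ 4 + K * t := by omega
    have c3 : ((t1 + t2 : ℕ) : ℝ) ≤ ((4 + K * t : ℕ) : ℝ) := by exact_mod_cast c3'
    push_cast at c3
    have hKt : (0 : ℝ) ≤ t := Nat.cast_nonneg t
    have hK0 : (0 : ℝ) ≤ K := Nat.cast_nonneg K
    have hV0' : (0 : ℝ) ≤ V := Nat.cast_nonneg V
    nlinarith [mul_nonneg hK0 hKt, mul_nonneg hV0' hKt]
  · right
    rw [hfin]
    simp [Cmd.length_compile]
  · rw [hfin]
    exact hR2.reg 0 hV0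

end Pool.Agent.L7h53.UM

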