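import Mathlib
import Pool.Agent.L7h11.UM.Lang

/-!
# Simple lemmas on states
-/

set_option autoImplicit false

namespace Pool.Agent.L7h53.UM

open Pool.Agent.L7h11.UM

theorem var_self (s : S) (x k : ℕ) : (s.setV x k).var x = k := by simp [S.setV]

theorem var_ne {s : S} {x y k : ℕ} (h : y ≠ x) : (s.setV x k).var y = s.var y := by
  simp [S.setV, Function.update_of_ne h]

theorem arr_set (s : S) (x k : ℕ) : (s.setV x k).arr = s.arr := rfl

theorem var_put (s : S) (q i k : ℕ) : (s.putA q i k).var = s.var := rfl

theorem arr_self (s : S) (q i k : ℕ) : (s.putA q i k).arr q i = k := by simp [S.putA]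

theorem arr_put (s : S) (q i k : ℕ) :
    (s.putA q i k).arr q = Function.update (s.arr q) i k := by simp [S.putA]

theorem arr_ne {s : S} {q i k r : ℕ} (h : r ≠ q) : (s.putA q i k).arr r = s.arr r := by
  simp [S.putA, Function.update_of_ne h]

theorem arr_ne' {s : S} {q i k r j : ℕ} (h : j ≠ i) : (s.putA q i k).arr r j = s.arr r j := by
  by_cases hr : r = q
  · subst hr; simp [S.putA, Function.update_of_ne h]
  · rw [arr_ne hr]

end Pool.Agent.L7h53.UM
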