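import Mathlib
import Pool.Agent.L7h11.UM.Stm
import Pool.Agent.L7h11.UM.Siz
import Pool.Agent.L7h53.UM.Bas

/-!
# Phase 2: sizes, logarithms, lists of the classes
-/

set_option autoImplicit false

namespace Pool.Agent.L7h53.UM

open Pool.Agent.L7h11.UM

theorem Ht_loopC {N W : ℕ} {a b : Ex} {c : Cm} {Q : S → Prop} (M : ℕ) (I : ℕ → S → Prop)
    (T : ℕ)
    (hstep : ∀ k < M, ∀ s, I k s → a.ok N W s ∧ b.ok N W s ∧ a.ev s < b.ev s ∧
      Ht N W c s T (I (k + 1)))
    (hend : ∀ s, I M s → a.ok N W s ∧ b.ok N W s ∧ ¬ a.ev s < b.ev s ∧ Q s) {s : S}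
    (h0 : I 0 s) : Ht N W (.loop a b c) s (M * (T + 1) + 1) Q := by
  have := Ht.loop M I (fun _ => T) hstep hend h0
  simpa using this

/-- Sizes. -/
def cA : Cm := .loop (.c 0) (.v 10) (.seq (.set 10 (.sub (.v 10) (.c 1)))
  (.seq (.set 11 (.get 1 (.v 10))) (.seq (.put 3 (.v 11) (.add (.get 3 (.v 11)) (.c 1)))
    (.seq (.set 12 (.get 2 (.v 11))) (.put 3 (.v 12) (.add (.get 3 (.v 12)) (.get 3 (.v 11))))))))

structure IA (n : ℕ) (par idx : ℕ → ℕ) (s0 : S) (k : ℕ) (s : S) : Prop where
  v0 : s.var 0 = n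
  v10 : s.var 10 = n - k
  oth : ∀ q, q ≠ 3 → s.arr q = s0.arr q
  siz : ∀ v < n, s.arr 3 v = (if n - k ≤ idx v then 1 else 0) +
    ∑ c ∈ (kids n par v).filter (fun c => n - k ≤ idx c), sz n par c
  last : k < n → s.arr 3 n = 0

theorem ht_A (n W : ℕ) (s : S) (hn : 1 ≤ n) (hW : 10 * (n + 1) ≤ W) (h0 : s.var 0 = n)
    (h10 : s.var 10 = n) (hR : Rooting n (s.arr 1) (s.arr 2)) (hz : s.arr 3 = fun _ => 0) :
    Ht (64 * (n + 1)) W cA s (n * (5 + 1) + 1) (fun s' => s'.var 0 = n ∧
      (∀ q, q ≠ 3 → s'.arr q = s.arr q) ∧ ∀ v < n, s'.arr 3 v = sz n (s.arr 2) v) := by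
  set ord := s.arr 1 with hord
  set par := s.arr 2 with hpar
  obtain ⟨idx, h1, h2⟩ := hR.exists_idx
  obtain ⟨z1, z2, z3, z4, -⟩ := s_siz n ord par hR
  have h00 : idx 0 = 0 := by
    have := h2 0 (by omega)
    rwa [hR.ord_zero] at this
  apply Ht_loopC n (IA n par idx s) 5
  · intro k hk s1 hI
    have hi : n - k - 1 < n := by omega
    set i := n - (k + 1) with hik
    have hi' : n - k - 1 = i := by omega
    have hin : i < n := by omega
    set v := ord i with hv
    have hvn : v < n := hR.ord_lt i hin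
    have hidv : idx v = i := h2 i hin
    have hb : ∀ u < n, s1.arr 3 u ≤ n := by
      intro u hu
      rw [hI.siz u hu]
      have e1 : ∑ c ∈ (kids n par u).filter (fun c => n - k ≤ idx c), sz n par c ≤
          ∑ c ∈ kids n par u, sz n par c :=
        Finset.sum_le_sum_of_subset (Finset.filter_subset _ _)
      have e2 := z1 u hu
      have e3 := (z3 u hu).2
      split_ifs <;> omega
    have ev : s1.arr 3 v + 1 = sz n par v := by
      rw [hI.siz v hvn, z1 v hvn, if_neg (by omega), Finset.filter_true_of_mem]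
      · omega
      · intro c hc
        obtain ⟨a1, a2⟩ := mem_kids.1 hc
        have := (hR.par_idx h1 h2 a1 (Or.inl (by rw [a2]; exact hvn))).2.2
        rw [a2, hidv] at this
        omega
    have e10 := hI.v10
    have e0 := hI.v0
    have a1 : s1.arr 1 = ord := hI.oth 1 (by decide)
    have a2 : s1.arr 2 = par := hI.oth 2 (by decide)
    have hp : par v ≤ n := by
      by_cases h0' : i = 0
      · rw [hv, h0', hR.ord_zero, hR.par_zero]
      · exact (hR.par_idx h1 h2 hvn (Or.inr (by
          intro hv0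
          apply h0'
          rw [← hidv, hv0, h00]))).2.1.le
    have hpv : par v ≠ v := by
      by_cases h0' : v = 0
      · rw [h0', hR.par_zero]; omega
      · have := (hR.par_idx h1 h2 hvn (Or.inr h0')).2.2
        intro h; rw [h] at this; omega
    have hpb : s1.arr 3 (par v) ≤ n := by
      rcases Nat.lt_or_ge (par v) n with h | h
      · exact hb _ h
      · have : par v = n := by omega
        rw [this, hI.last hk]; omega
    refine ⟨by simp only [Ex.ok]; omega, by simp only [Ex.ok]; omega,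
      by simp only [Ex.ev]; omega, ?_⟩
    show Ht (64 * (n + 1)) W _ s1 (1 + (1 + (1 + (1 + 1)))) _
    apply Ht.seq
    apply Ht.set (by simp only [Ex.ok]; omega)
    have f1 : (Ex.sub (.v 10) (.c 1)).ev s1 = i := by simp only [Ex.ev]; omega
    rw [f1]
    apply Ht.seq
    apply Ht.set
    · simp only [Ex.ok, Ex.ev, var_self, arr_set, a1]
      refine ⟨by omega, by omega, by omega, ?_⟩
      rw [← hv]; omega
    have f2 : (Ex.get 1 (.v 10)).ev (s1.setV 10 i) = v := by
      simp only [Ex.ev, var_self, arr_set, a1]; rfl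
    rw [f2]
    apply Ht.seq
    have hbv := hb v hvn
    have hszv := (z3 v hvn).2
    apply Ht.put
    · simp only [Ex.ok, var_self]; omega
    · simp only [Ex.ev, var_self]; omega
    · simp only [Ex.ev, var_self]; omega
    · simp only [Ex.ok, Ex.ev, var_self, arr_set]
      refine ⟨⟨by omega, by omega, by omega, by omega⟩, by omega, by omega⟩
    · simp only [Ex.ev, var_self, arr_set]; omega
    have f3 : (Ex.v 11).ev ((s1.setV 10 i).setV 11 v) = v := by simp only [Ex.ev, var_self]
    have f4 : (Ex.add (.get 3 (.v 11)) (.c 1)).ev ((s1.setV 10 i).setV 11 v) = sz n par v := by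
      simp only [Ex.ev, var_self, arr_set]; exact ev
    rw [f3, f4]
    apply Ht.seq
    apply Ht.set
    · simp only [Ex.ok, Ex.ev, var_self, arr_set, var_put, arr_ne (by decide : (2 : ℕ) ≠ 3), a2]
      refine ⟨by omega, by omega, by omega, by omega⟩
    have f5 : (Ex.get 2 (.v 11)).ev (((s1.setV 10 i).setV 11 v).putA 3 v (sz n par v)) = par v := by
      simp only [Ex.ev, var_self, arr_set, var_put, arr_ne (by decide : (2 : ℕ) ≠ 3), a2]
    rw [f5]
    have f6 : ((((s1.setV 10 i).setV 11 v).putA 3 v (sz n par v)).setV 12 (par v)).arr 3 (par v) =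
        s1.arr 3 (par v) := by
      simp only [arr_set]
      rw [arr_ne' hpv]; rfl
    have f7 : ((((s1.setV 10 i).setV 11 v).putA 3 v (sz n par v)).setV 12 (par v)).arr 3 v =
        sz n par v := by
      simp only [arr_set]
      rw [arr_self]
    have f8 : ((((s1.setV 10 i).setV 11 v).putA 3 v (sz n par v)).setV 12 (par v)).var 12 = par v :=
      var_self _ _ _
    have f9 : ((((s1.setV 10 i).setV 11 v).putA 3 v (sz n par v)).setV 12 (par v)).var 11 = v := by
      rw [var_ne (by decide), var_put, var_self]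
    have f10 : ((((s1.setV 10 i).setV 11 v).putA 3 v (sz n par v)).setV 12 (par v)).var 10 = i := by
      rw [var_ne (by decide), var_put, var_ne (by decide), var_self]
    have f0 : ((((s1.setV 10 i).setV 11 v).putA 3 v (sz n par v)).setV 12 (par v)).var 0 = n := by
      rw [var_ne (by decide), var_put, var_ne (by decide), var_ne (by decide), e0]
    set s2 : S := (((s1.setV 10 i).setV 11 v).putA 3 v (sz n par v)).setV 12 (par v) with hs2
    have f11 : ∀ q, q ≠ 3 → s2.arr q = s1.arr q := by
      intro q hq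
      rw [hs2]
      simp only [arr_set]
      rw [arr_ne hq]; rfl
    have f12 : ∀ u, u ≠ v → s2.arr 3 u = s1.arr 3 u := by
      intro u hu
      rw [hs2]
      simp only [arr_set]
      rw [arr_ne' hu]; rfl
    clear_value s2
    apply Ht.put
    · simp only [Ex.ok, f8]; omega
    · simp only [Ex.ev, f8]; omega
    · simp only [Ex.ev, f8]; omega
    · simp only [Ex.ok, Ex.ev, f8, f9, f6, f7]
      refine ⟨⟨by omega, by omega, by omega, by omega⟩, ⟨by omega, by omega, by omega, by omega⟩,
        by omega⟩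
    · simp only [Ex.ev, f8, f9, f6, f7]; omega
    have f13 : (Ex.v 12).ev s2 = par v := f8
    have f14 : (Ex.add (.get 3 (.v 12)) (.get 3 (.v 11))).ev s2 =
        s1.arr 3 (par v) + sz n par v := by
      simp only [Ex.ev, f8, f9, f6, f7]
    rw [f13, f14]
    refine ⟨by rw [var_put, f0], by rw [var_put, f10], fun q hq => ?_, fun u hu => ?_, fun hk' => ?_⟩
    · rw [arr_ne hq, f11 q hq, hI.oth q hq]
    · by_cases huv : u = v
      · rw [huv, arr_ne' hpv.symm, f7, hidv, if_pos le_rfl, z1 v hvn, Finset.filter_true_of_mem]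
        intro c hc
        obtain ⟨b1, b2⟩ := mem_kids.1 hc
        have := (hR.par_idx h1 h2 b1 (Or.inl (by rw [b2]; exact hvn))).2.2
        rw [b2, hidv] at this
        omega
      · by_cases hup : u = par v
        · subst hup
          rw [arr_self, hI.siz _ hu]
          have hlt := (hR.par_idx h1 h2 hvn (Or.inl hu)).2.2
          rw [if_neg (by omega), if_neg (by omega)]
          have e : (kids n par (par v)).filter (fun c => n - (k + 1) ≤ idx c) =
              insert v ((kids n par (par v)).filter (fun c => n - k ≤ idx c)) := by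
            ext c
            simp only [Finset.mem_filter, Finset.mem_insert, mem_kids]
            constructor
            · rintro ⟨⟨b1, b2⟩, b3⟩
              by_cases hc : idx c = i
              · left
                rw [← (h1 c b1).2, hc]
              · right
                exact ⟨⟨b1, b2⟩, by omega⟩
            · rintro (rfl | ⟨⟨b1, b2⟩, b3⟩)
              · exact ⟨⟨hvn, rfl⟩, by omega⟩
              · exact ⟨⟨b1, b2⟩, by omega⟩
          rw [e, Finset.sum_insert]
          · omega
          · simp only [Finset.mem_filter, not_and]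
            intro _
            omega
        · rw [arr_ne' hup, f12 u huv, hI.siz u hu]
          have hiu : idx u ≠ i := by
            intro h
            apply huv
            rw [← (h1 u hu).2, h]
          have e : (kids n par u).filter (fun c => n - (k + 1) ≤ idx c) =
              (kids n par u).filter (fun c => n - k ≤ idx c) := by
            apply Finset.filter_congr
            intro c hc
            obtain ⟨b1, b2⟩ := mem_kids.1 hc
            have hci : idx c ≠ i := by
              intro h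
              apply hup
              rw [← b2]
              congr 1
              rw [← (h1 c b1).2, h]
            constructor <;> intro h <;> omega
          rw [e]
          congr 1
          by_cases h : n - k ≤ idx u
          · rw [if_pos h, if_pos (by omega)]
          · rw [if_neg h, if_neg (by omega)]
    · have hpn : par v < n := by
        refine (hR.par_idx h1 h2 hvn (Or.inr ?_)).2.1
        intro hv0
        have : idx v = 0 := by rw [hv0, h00]
        omega
      rw [arr_ne' (by omega), f12 n (by omega)]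
      exact hI.last hk
  · intro s1 hI
    have e10 := hI.v10
    refine ⟨by simp only [Ex.ok]; omega, by simp only [Ex.ok]; omega, by simp only [Ex.ev]; omega,
      hI.v0, hI.oth, fun v hv => ?_⟩
    rw [hI.siz v hv, z1 v hv, if_pos (by omega), Finset.filter_true_of_mem]
    intro c _
    omega
  · refine ⟨h0, by omega, fun q _ => rfl, fun v hv => ?_, fun _ => by rw [hz]⟩
    rw [hz, if_neg (by have := (h1 v hv).1; omega), Finset.filter_false_of_mem]
    · simp
    · intro c hc
      obtain ⟨b1, b2⟩ := mem_kids.1 hc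
      have := (h1 c b1).1
      omega

/-- Logarithms. -/
def cB : Cm := .loop (.v 10) (.add (.v 0) (.c 1)) (.seq (.ite (.v 10) (.v 12) .skip
  (.seq (.set 11 (.add (.v 11) (.c 1))) (.set 12 (.add (.v 12) (.v 12)))))
    (.seq (.put 5 (.v 10) (.v 11)) (.set 10 (.add (.v 10) (.c 1)))))

structure IB (n : ℕ) (s0 : S) (k : ℕ) (s : S) : Prop where
  v0 : s.var 0 = n
  v10 : s.var 10 = k + 1
  v11 : s.var 11 = Nat.log 2 k
  v12 : s.var 12 = 2 ^ (Nat.log 2 k + 1)
  oth : ∀ q, q ≠ 5 → s.arr q = s0.arr q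
  lg : ∀ m ≤ k, s.arr 5 m = Nat.log 2 m

theorem log_step (k : ℕ) (h : k + 1 < 2 ^ (Nat.log 2 k + 1)) : Nat.log 2 (k + 1) = Nat.log 2 k := by
  rcases Nat.eq_zero_or_pos k with rfl | hk
  · simp
  · rw [Nat.log_eq_iff (Or.inr ⟨by norm_num, by omega⟩)]
    exact ⟨(Nat.pow_log_le_self 2 (by omega)).trans (by omega), h⟩

theorem log_step' (k : ℕ) (h : ¬ k + 1 < 2 ^ (Nat.log 2 k + 1)) :
    Nat.log 2 (k + 1) = Nat.log 2 k + 1 := by
  have h1 : k < 2 ^ (Nat.log 2 k + 1) := Nat.lt_pow_succ_log_self (by norm_num) k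
  rw [Nat.log_eq_iff (Or.inr ⟨by norm_num, by omega⟩)]
  refine ⟨by omega, ?_⟩
  have : (2 : ℕ) ^ (Nat.log 2 k + 1 + 1) = 2 * 2 ^ (Nat.log 2 k + 1) := by ring
  have hp : 0 < (2 : ℕ) ^ (Nat.log 2 k + 1) := by positivity
  omega

theorem log_le' (k : ℕ) : Nat.log 2 k ≤ k := Nat.log_le_self 2 k

theorem pow_log_le (k : ℕ) : 2 ^ (Nat.log 2 k + 1) ≤ 2 * k + 2 := by
  rcases Nat.eq_zero_or_pos k with rfl | hk
  · simp
  · have := Nat.pow_log_le_self 2 (by omega : k ≠ 0)
    rw [pow_succ]; omega

theorem ht_B (n W : ℕ) (s : S) (hn : 1 ≤ n) (hW : 10 * (n + 1) ≤ W) (h0 : s.var 0 = n)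
    (h10 : s.var 10 = 1) (h11 : s.var 11 = 0) (h12 : s.var 12 = 2) (hz : s.arr 5 0 = 0) :
    Ht (64 * (n + 1)) W cB s (n * (5 + 1) + 1) (fun s' => s'.var 0 = n ∧
      (∀ q, q ≠ 5 → s'.arr q = s.arr q) ∧ ∀ m ≤ n, s'.arr 5 m = Nat.log 2 m) := by
  apply Ht_loopC n (IB n s) 5
  · intro k hk s1 hI
    have e0 := hI.v0
    have e10 := hI.v10
    have e11 := hI.v11
    have e12 := hI.v12
    have b1 := log_le' k
    have b2 := pow_log_le k
    refine ⟨by simp only [Ex.ok]; omega, by simp only [Ex.ok, Ex.ev]; omega,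
      by simp only [Ex.ev]; omega, ?_⟩
    show Ht (64 * (n + 1)) W _ s1 ((2 + 1) + (1 + 1)) _
    apply Ht.seq
    apply Ht.mono (T := 2 + 1) (Q := fun s' => s'.var 0 = n ∧ s'.var 10 = k + 1 ∧
      s'.var 11 = Nat.log 2 (k + 1) ∧ s'.var 12 = 2 ^ (Nat.log 2 (k + 1) + 1) ∧
      s'.arr = s1.arr) ?_ le_rfl
    · rintro s2 ⟨g0, g10, g11, g12, ga⟩
      have b3 := log_le' (k + 1)
      apply Ht.seq
      apply Ht.put
      · simp only [Ex.ok]; omega
      · simp only [Ex.ev]; omega
      · simp only [Ex.ev]; omega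
      · simp only [Ex.ok]; omega
      · simp only [Ex.ev]; omega
      have f1 : (Ex.v 10).ev s2 = k + 1 := g10
      have f2 : (Ex.v 11).ev s2 = Nat.log 2 (k + 1) := g11
      rw [f1, f2]
      apply Ht.set
      · simp only [Ex.ok, Ex.ev, var_put]; omega
      have f3 : (Ex.add (.v 10) (.c 1)).ev (s2.putA 5 (k + 1) (Nat.log 2 (k + 1))) = k + 2 := by
        simp only [Ex.ev, var_put]; omega
      rw [f3]
      refine ⟨?_, ?_, ?_, ?_, fun q hq => ?_, fun m hm => ?_⟩
      · rw [var_ne (by decide), var_put, g0]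
      · rw [var_self]
      · rw [var_ne (by decide), var_put, g11]
      · rw [var_ne (by decide), var_put, g12]
      · rw [arr_set, arr_ne hq, ga, hI.oth q hq]
      · rw [arr_set]
        by_cases hm' : m = k + 1
        · subst hm'; rw [arr_self]
        · rw [arr_ne' hm', ga, hI.lg m (by omega)]
    · apply Ht.ite
      · simp only [Ex.ok]; omega
      · simp only [Ex.ok]; omega
      · intro h
        simp only [Ex.ev] at h
        refine Ht.mono (Ht.skip ?_) (by omega) (fun _ h => h)
        have := log_step k (by omega)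
        rw [this]
        exact ⟨e0, e10, e11, e12, rfl⟩
      · intro h
        simp only [Ex.ev] at h
        have := log_step' k (by omega)
        rw [this]
        show Ht (64 * (n + 1)) W _ s1 (1 + 1) _
        apply Ht.seq
        apply Ht.set
        · simp only [Ex.ok, Ex.ev]; omega
        have f1 : (Ex.add (.v 11) (.c 1)).ev s1 = Nat.log 2 k + 1 := by
          simp only [Ex.ev]; omega
        rw [f1]
        apply Ht.set
        · simp only [Ex.ok, Ex.ev, var_ne (by decide : (12 : ℕ) ≠ 11)]; omega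
        have f2 : (Ex.add (.v 12) (.v 12)).ev (s1.setV 11 (Nat.log 2 k + 1)) =
            2 ^ (Nat.log 2 k + 1 + 1) := by
          simp only [Ex.ev, var_ne (by decide : (12 : ℕ) ≠ 11)]
          rw [e12]; ring
        rw [f2]
        refine ⟨?_, ?_, ?_, ?_, rfl⟩
        · rw [var_ne (by decide), var_ne (by decide), e0]
        · rw [var_ne (by decide), var_ne (by decide), e10]
        · rw [var_ne (by decide), var_self]
        · rw [var_self]
  · intro s1 hI
    have e0 := hI.v0
    have e10 := hI.v10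
    refine ⟨by simp only [Ex.ok]; omega, by simp only [Ex.ok, Ex.ev]; omega,
      by simp only [Ex.ev]; omega, hI.v0, hI.oth, hI.lg⟩
  · refine ⟨h0, h10, by simp [h11], by simp [h12], fun q _ => rfl, fun m hm => ?_⟩
    have : m = 0 := by omega
    subst this
    simp [hz]

/-- Lists of the classes. -/
def cC : Cm := .loop (.v 10) (.v 0) (.seq (.set 11 (.get 1 (.v 10)))
  (.seq (.set 12 (.get 5 (.get 3 (.v 11)))) (.seq (.put 7 (.v 11) (.get 6 (.v 12)))
    (.seq (.put 6 (.v 12) (.add (.v 11) (.c 1))) (.set 10 (.add (.v 10) (.c 1)))))))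

/-- The list number `j` after `k` rounds. -/
noncomputable def Lk (n : ℕ) (ord par : ℕ → ℕ) (k j : ℕ) : List ℕ :=
  ((List.range k).map (fun i => ord (k - 1 - i))).filter
    (fun v => decide (2 ^ j ≤ sz n par v ∧ sz n par v < 2 ^ (j + 1)))

theorem Lk_n (n : ℕ) (ord par : ℕ → ℕ) (j : ℕ) : Lk n ord par n j = clsL n ord par j := rfl

theorem Lk_succ (n : ℕ) (ord par : ℕ → ℕ) (k j : ℕ) : Lk n ord par (k + 1) j =
    if 2 ^ j ≤ sz n par (ord k) ∧ sz n par (ord k) < 2 ^ (j + 1) then
      ord k :: Lk n ord par k j else Lk n ord par k j := by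
  have e : (List.range (k + 1)).map (fun i => ord (k + 1 - 1 - i)) =
      ord k :: (List.range k).map (fun i => ord (k - 1 - i)) := by
    rw [List.range_succ_eq_map, List.map_cons, List.map_map]
    congr 1
    apply List.map_congr_left
    intro i _
    simp only [Function.comp]
    congr 1
    omega
  unfold Lk
  rw [e, List.filter_cons]
  simp

theorem mem_Lk {n : ℕ} {ord par : ℕ → ℕ} {k j v : ℕ} (h : v ∈ Lk n ord par k j) :
    ∃ i < k, v = ord i := by
  unfold Lk at h
  rw [List.mem_filter, List.mem_map] at h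
  obtain ⟨⟨i, hi, hv⟩, -⟩ := h
  rw [List.mem_range] at hi
  exact ⟨k - 1 - i, by omega, hv.symm⟩

theorem Chain_congr {nx nx' : ℕ → ℕ} : ∀ {l : List ℕ} {h : ℕ}, (∀ c ∈ l, nx' c = nx c) →
    Chain nx h l → Chain nx' h l := by
  intro l
  induction l with
  | nil => intro h _ hc; exact hc
  | cons c l ih =>
    intro h he hc
    refine ⟨hc.1, ?_⟩
    rw [he c (by simp)]
    exact ih (fun c' hc' => he c' (by simp [hc'])) hc.2

structure IC (n : ℕ) (ord par : ℕ → ℕ) (s0 : S) (k : ℕ) (s : S) : Prop where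
  v0 : s.var 0 = n
  v10 : s.var 10 = k
  oth : ∀ q, q ≠ 6 → q ≠ 7 → s.arr q = s0.arr q
  hd : ∀ j, s.arr 6 j ≤ n
  ch : ∀ j, Chain (s.arr 7) (s.arr 6 j) (Lk n ord par k j)

theorem log_cls {m j : ℕ} (hm : 1 ≤ m) : (2 ^ j ≤ m ∧ m < 2 ^ (j + 1)) ↔ Nat.log 2 m = j := by
  rw [Nat.log_eq_iff (Or.inr ⟨by norm_num, by omega⟩)]

theorem ht_C (n W : ℕ) (s : S) (hn : 1 ≤ n) (hW : 10 * (n + 1) ≤ W) (h0 : s.var 0 = n)
    (h10 : s.var 10 = 0) (hR : Rooting n (s.arr 1) (s.arr 2))
    (hs : ∀ v < n, s.arr 3 v = sz n (s.arr 2) v) (hl : ∀ m ≤ n, s.arr 5 m = Nat.log 2 m)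
    (h6 : s.arr 6 = fun _ => 0) :
    Ht (64 * (n + 1)) W cC s (n * (5 + 1) + 1) (fun s' => s'.var 0 = n ∧
      (∀ q, q ≠ 6 → q ≠ 7 → s'.arr q = s.arr q) ∧
      ∀ j, Chain (s'.arr 7) (s'.arr 6 j) (clsL n (s.arr 1) (s.arr 2) j)) := by
  set ord := s.arr 1 with hord
  set par := s.arr 2 with hpar
  obtain ⟨idx, h1, h2⟩ := hR.exists_idx
  obtain ⟨z1, z2, z3, z4, -⟩ := s_siz n ord par hR
  apply Ht_loopC n (IC n ord par s) 5
  · intro k hk s1 hI
    have e0 := hI.v0
    have e10 := hI.v10
    set v := ord k with hv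
    have hvn : v < n := hR.ord_lt k hk
    have a1 : s1.arr 1 = ord := hI.oth 1 (by decide) (by decide)
    have a3 : s1.arr 3 = s.arr 3 := hI.oth 3 (by decide) (by decide)
    have a5 : s1.arr 5 = s.arr 5 := hI.oth 5 (by decide) (by decide)
    have b1 := (z3 v hvn).1
    have b2 := (z3 v hvn).2
    have b3 := hs v hvn
    have b4 := hl (sz n par v) b2
    have b5 := log_le' (sz n par v)
    have b6 : s1.arr 6 (Nat.log 2 (sz n par v)) ≤ n := hI.hd _
    refine ⟨by simp only [Ex.ok]; omega, by simp only [Ex.ok]; omega,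
      by simp only [Ex.ev]; omega, ?_⟩
    show Ht (64 * (n + 1)) W _ s1 (1 + (1 + (1 + (1 + 1)))) _
    apply Ht.seq
    apply Ht.set
    · simp only [Ex.ok, Ex.ev, a1, e10]
      refine ⟨by omega, by omega, by omega, by omega⟩
    have f1 : (Ex.get 1 (.v 10)).ev s1 = v := by
      simp only [Ex.ev, a1, e10]; rfl
    rw [f1]
    apply Ht.seq
    apply Ht.set
    · simp only [Ex.ok, Ex.ev, var_self, arr_set, a3, a5, b3, b4]
      refine ⟨⟨by omega, by omega, by omega, by omega⟩, by omega, by omega, by omega⟩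
    have f2 : (Ex.get 5 (.get 3 (.v 11))).ev (s1.setV 11 v) = Nat.log 2 (sz n par v) := by
      simp only [Ex.ev, var_self, arr_set, a3, a5, b3, b4]
    rw [f2]
    set J := Nat.log 2 (sz n par v) with hJ
    have g11 : ((s1.setV 11 v).setV 12 J).var 11 = v := by
      rw [var_ne (by decide), var_self]
    have g12 : ((s1.setV 11 v).setV 12 J).var 12 = J := by
      rw [var_self]
    have ga : ((s1.setV 11 v).setV 12 J).arr = s1.arr := rfl
    have g10 : ((s1.setV 11 v).setV 12 J).var 10 = k := by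
      rw [var_ne (by decide), var_ne (by decide), e10]
    have g0 : ((s1.setV 11 v).setV 12 J).var 0 = n := by
      rw [var_ne (by decide), var_ne (by decide), e0]
    set s2 : S := (s1.setV 11 v).setV 12 J with hs2
    clear_value s2
    apply Ht.seq
    apply Ht.put
    · simp only [Ex.ok]; omega
    · simp only [Ex.ev]; omega
    · simp only [Ex.ev]; omega
    · simp only [Ex.ok, Ex.ev, g12, ga]
      refine ⟨by omega, by omega, by omega, by omega⟩
    · simp only [Ex.ev, g12, ga]; omega
    have f3 : (Ex.v 11).ev s2 = v := g11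
    have f4 : (Ex.get 6 (.v 12)).ev s2 = s1.arr 6 J := by
      simp only [Ex.ev, g12, ga]
    rw [f3, f4]
    apply Ht.seq
    apply Ht.put
    · simp only [Ex.ok, var_put]; omega
    · simp only [Ex.ev, var_put]; omega
    · simp only [Ex.ev, var_put]; omega
    · simp only [Ex.ok, Ex.ev, var_put]
      refine ⟨by omega, by omega, by omega⟩
    · simp only [Ex.ev, var_put]; omega
    have f5 : (Ex.v 12).ev (s2.putA 7 v (s1.arr 6 J)) = J := g12
    have f6 : (Ex.add (.v 11) (.c 1)).ev (s2.putA 7 v (s1.arr 6 J)) = v + 1 := by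
      simp only [Ex.ev, var_put, g11]
    rw [f5, f6]
    apply Ht.set
    · simp only [Ex.ok, Ex.ev, var_put]; omega
    have f7 : (Ex.add (.v 10) (.c 1)).ev ((s2.putA 7 v (s1.arr 6 J)).putA 6 J (v + 1)) = k + 1 := by
      simp only [Ex.ev, var_put, g10]
    rw [f7]
    have k7 : (((s2.putA 7 v (s1.arr 6 J)).putA 6 J (v + 1)).setV 10 (k + 1)).arr 7 =
        Function.update (s1.arr 7) v (s1.arr 6 J) := by
      rw [arr_set, arr_ne (by decide), arr_put, ga]
    have k6 : (((s2.putA 7 v (s1.arr 6 J)).putA 6 J (v + 1)).setV 10 (k + 1)).arr 6 =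
        Function.update (s1.arr 6) J (v + 1) := by
      rw [arr_set, arr_put, arr_ne (by decide), ga]
    refine ⟨?_, ?_, fun q hq hq' => ?_, fun j => ?_, fun j => ?_⟩
    · rw [var_ne (by decide), var_put, var_put, g0]
    · rw [var_self]
    · rw [arr_set, arr_ne hq, arr_ne hq', ga, hI.oth q hq hq']
    · rw [k6]
      by_cases hj : j = J
      · rw [hj, Function.update_self]; omega
      · rw [Function.update_of_ne hj]; exact hI.hd j
    · rw [k6, k7, Lk_succ, ← hv]
      have hnot : ∀ c ∈ Lk n ord par k j, Function.update (s1.arr 7) v (s1.arr 6 J) c =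
          s1.arr 7 c := by
        intro c hc
        obtain ⟨i, hi, hci⟩ := mem_Lk hc
        rw [Function.update_of_ne]
        rw [hci, hv]
        intro h
        have := hR.ord_inj i (by omega) k hk h
        omega
      by_cases hj : j = J
      · rw [hj, Function.update_self, if_pos ((log_cls b1).2 rfl)]
        refine ⟨rfl, ?_⟩
        rw [Function.update_self]
        rw [hj] at hnot
        exact Chain_congr hnot (hI.ch J)
      · rw [Function.update_of_ne hj, if_neg (fun h => hj ((log_cls b1).1 h).symm)]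
        exact Chain_congr hnot (hI.ch j)
  · intro s1 hI
    have e0 := hI.v0
    have e10 := hI.v10
    refine ⟨by simp only [Ex.ok]; omega, by simp only [Ex.ok]; omega,
      by simp only [Ex.ev]; omega, hI.v0, hI.oth, hI.ch⟩
  · refine ⟨h0, h10, fun q _ _ => rfl, fun j => by rw [h6]; exact Nat.zero_le _, fun j => ?_⟩
    rw [h6]
    exact rfl

theorem s_PH2 : S_PH2 := by
  refine ⟨.seq (.set 10 (.v 0)) (.seq cA (.seq (.set 10 (.c 1)) (.seq (.set 11 (.c 0))
    (.seq (.set 12 (.c 2)) (.seq cB (.seq (.set 10 (.c 0)) cC)))))), 100, ?_⟩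
  intro n W s hn hW h0 hR hz
  have hW' : 10 * (n + 1) ≤ W := by omega
  apply Ht.mono (T := 1 + ((n * (5 + 1) + 1) + (1 + (1 + (1 + ((n * (5 + 1) + 1) +
    (1 + (n * (5 + 1) + 1))))))))
    (Q := fun s' => s'.var 0 = n ∧ s'.arr 0 = s.arr 0 ∧
      s'.arr 1 = s.arr 1 ∧ s'.arr 2 = s.arr 2 ∧ (∀ v < n, s'.arr 3 v = sz n (s.arr 2) v) ∧
      ∀ j, Chain (s'.arr 7) (s'.arr 6 j) (clsL n (s.arr 1) (s.arr 2) j)) ?_ (by omega)
  · rintro s' ⟨t0, t1, t2, t3, t4, t5⟩
    exact ⟨t0, t1, t2, t3, t4, fun j _ => t5 j⟩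
  apply Ht.seq
  apply Ht.set (by simp only [Ex.ok]; omega)
  have f1 : (Ex.v 0).ev s = n := h0
  rw [f1]
  apply Ht.seq
  have hA := ht_A n W (s.setV 10 n) hn hW' (by rw [var_ne (by decide), h0]) (var_self _ _ _)
    hR (hz 3 le_rfl)
  refine hA.mono le_rfl ?_
  rintro s1 ⟨a0, a1, a2⟩
  simp only [arr_set] at a1 a2
  apply Ht.seq
  apply Ht.set (by simp only [Ex.ok]; omega)
  apply Ht.seq
  apply Ht.set (by simp only [Ex.ok]; omega)
  apply Ht.seq
  apply Ht.set (by simp only [Ex.ok]; omega)
  simp only [Ex.ev]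
  apply Ht.seq
  have hB := ht_B n W (((s1.setV 10 1).setV 11 0).setV 12 2) hn hW'
    (by rw [var_ne (by decide), var_ne (by decide), var_ne (by decide), a0])
    (by rw [var_ne (by decide), var_ne (by decide), var_self])
    (by rw [var_ne (by decide), var_self]) (by rw [var_self])
    (by simp only [arr_set]; rw [a1 5 (by decide), hz 5 (by decide)])
  refine hB.mono le_rfl ?_
  rintro s2 ⟨b0, b1, b2⟩
  simp only [arr_set] at b1
  apply Ht.seq
  apply Ht.set (by simp only [Ex.ok]; omega)
  simp only [Ex.ev]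
  have g1 : s2.arr 1 = s.arr 1 := by rw [b1 1 (by decide), a1 1 (by decide)]
  have g2 : s2.arr 2 = s.arr 2 := by rw [b1 2 (by decide), a1 2 (by decide)]
  have g0 : s2.arr 0 = s.arr 0 := by rw [b1 0 (by decide), a1 0 (by decide)]
  have g3 : ∀ v < n, s2.arr 3 v = sz n (s.arr 2) v := by
    intro v hv
    rw [b1 3 (by decide), a2 v hv]
  have hC := ht_C n W (s2.setV 10 0) hn hW' (by rw [var_ne (by decide), b0]) (var_self _ _ _)
    (by simp only [arr_set]; rw [g1, g2]; exact hR)
    (by simp only [arr_set]; rw [g2]; exact g3)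
    (by simp only [arr_set]; exact b2)
    (by simp only [arr_set]; rw [b1 6 (by decide), a1 6 (by decide), hz 6 (by decide)])
  refine hC.mono le_rfl ?_
  rintro s3 ⟨c0, c1, c2⟩
  simp only [arr_set] at c1 c2
  refine ⟨c0, ?_, ?_, ?_, fun v hv => ?_, fun j => ?_⟩
  · rw [c1 0 (by decide) (by decide), g0]
  · rw [c1 1 (by decide) (by decide), g1]
  · rw [c1 2 (by decide) (by decide), g2]
  · rw [c1 3 (by decide) (by decide), g3 v hv]
  · have := c2 j
    rwa [g1, g2] at this

end Pool.Agent.L7h53.UM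

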