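import Mathlib
import Pool.Agent.L7h11.UM.Stm
import Pool.Agent.L7h11.UM.Siz
import Pool.Agent.L7h53.UM.Bas

/-!
# Phase 4: the main loop
-/

set_option autoImplicit false

namespace Pool.Agent.L7h53.UM

open Pool.Agent.L7h11.UM

theorem Ht_loop_step {N W : ℕ} {a b : Ex} {c : Cm} {s : S} {T₁ T₂ : ℕ} {Q : S → Prop}
    (ha : a.ok N W s) (hb : b.ok N W s) (hlt : a.ev s < b.ev s)
    (h : Ht N W c s T₁ (fun s' => Ht N W (.loop a b c) s' T₂ Q)) :
    Ht N W (.loop a b c) s (T₁ + T₂ + 1) Q := by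
  obtain ⟨s', t, h1, h2, s'', t', h1', h2', h3⟩ := h
  exact ⟨s'', t + t' + 1, .loopT ha hb hlt h1 h1', by omega, h3⟩

theorem Ht_loop_end {N W : ℕ} {a b : Ex} {c : Cm} {s : S} {Q : S → Prop}
    (ha : a.ok N W s) (hb : b.ok N W s) (hlt : ¬ a.ev s < b.ev s) (h : Q s) :
    Ht N W (.loop a b c) s 1 Q :=
  ⟨s, 1, .loopF ha hb hlt, le_rfl, h⟩

/-- The frame of the six initializations and sweeps. -/
def Frame0 (s s' : S) : Prop :=
  (∀ x < 10, s'.var x = s.var x) ∧ ∀ q, ¬ (40 ≤ q ∧ q < 70) → s'.arr q = s.arr q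

theorem Frame0.refl (s : S) : Frame0 s s := ⟨fun _ _ => rfl, fun _ _ => rfl⟩

theorem Frame0.trans {s s' s'' : S} (h : Frame0 s s') (h' : Frame0 s' s'') : Frame0 s s'' :=
  ⟨fun x hx => (h'.1 x hx).trans (h.1 x hx), fun q hq => (h'.2 q hq).trans (h.2 q hq)⟩

theorem Frame0.of {a T : ℕ} (ha : a ≤ 2) (hT : T ≤ 1) {s s' : S} (h : Frame a T s s') :
    Frame0 s s' :=
  ⟨h.1, fun q hq => h.2 q (by omega) (by omega) (by omega)⟩

theorem ctx_frame {n : ℕ} {I ord par : ℕ → ℕ} {s s' : S} (hf : Frame0 s s')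
    (h : Ctx n I ord par s) : Ctx n I ord par s' := by
  constructor
  · rw [hf.1 0 (by decide)]; exact h.v0
  · rw [hf.2 0 (by decide)]; exact h.a0
  · rw [hf.2 1 (by decide)]; exact h.a1
  · rw [hf.2 2 (by decide)]; exact h.a2
  · rw [hf.2 3 (by decide)]; exact h.a3
  · rw [hf.2 6 (by decide), hf.2 7 (by decide)]; exact h.cls

theorem tab_frame {n : ℕ} {par : ℕ → ℕ} {s s' : S} (hf : Frame0 s s') {v : ℕ}
    (h : TabOK n par s v) : TabOK n par s' v := by
  intro a ha b hb
  rw [hf.2 (10 + 3 * a + b) (by omega), hf.2 (20 + 3 * a + b) (by omega),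
    hf.2 (30 + 3 * a + b) (by omega)]
  exact h a ha b hb

/-- One pair. -/
theorem pair_ok (hI : S_INI) (hS : S_SWE) : ∀ a ≤ 2, ∀ T ≤ 1, ∃ (c : Cm) (C : ℕ),
    ∀ (n : ℕ) (I ord par : ℕ → ℕ) (W j : ℕ) (s : S),
    Dat n I ord par → C * (n + 1) ≤ W → Ctx n I ord par s → 2 ^ j ≤ n → s.var 1 = 2 ^ j →
    s.var 2 = j → (∀ v < n, sz n par v < 2 ^ j → TabOK n par s v) →
    Ht (64 * (n + 1)) W c s (C * work n I ord par j)
      (fun s' => Frame a T s s' ∧ ∀ v ∈ clsL n ord par j, BaseOK n I par a T s' v) := by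
  intro a ha T hT
  obtain ⟨c1, C1, h1⟩ := hI a ha T hT
  obtain ⟨c2, C2, h2⟩ := hS a ha T hT
  refine ⟨.seq c1 c2, C1 + C2, ?_⟩
  intro n I ord par W j s hD hW hC hj h1' h2' hT'
  have hW1 : C1 * (n + 1) ≤ W := by nlinarith
  have hW2 : C2 * (n + 1) ≤ W := by nlinarith
  rw [Nat.add_mul]
  apply Ht.seq
  refine (h1 n I ord par W j s hD hW1 hC hj h1' h2' hT').mono le_rfl ?_
  rintro s1 ⟨f1, i1⟩
  have g1 := Frame0.of ha hT f1
  refine (h2 n I ord par W j s1 hD hW2 (ctx_frame g1 hC) hj ?_ ?_ ?_ i1).mono le_rfl ?_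
  · rw [g1.1 1 (by decide)]; exact h1'
  · rw [g1.1 2 (by decide)]; exact h2'
  · intro v hv hs
    exact tab_frame g1 (hT' v hv hs)
  rintro s2 ⟨f2, b2⟩
  refine ⟨⟨fun x hx => ?_, fun q hq hq' hq'' => ?_⟩, b2⟩
  · rw [f2.1 x hx, f1.1 x hx]
  · rw [f2.2 q hq hq' hq'', f1.2 q hq hq' hq'']

theorem base_frame {n : ℕ} {I par : ℕ → ℕ} {a T a' T' : ℕ} (ha : a ≤ 2) (hT : T ≤ 1)
    (ha' : a' ≤ 2) (hT' : T' ≤ 1) (hne : (a', T') ≠ (a, T)) {s s' : S} (hf : Frame a T s s')
    {v : ℕ} (h : BaseOK n I par a' T' s v) : BaseOK n I par a' T' s' v := by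
  have h1 : s'.arr (40 + 2 * a' + T') = s.arr (40 + 2 * a' + T') := by
    refine hf.2 _ ?_ (by omega) (by omega)
    intro h
    apply hne
    ext <;> simp <;> omega
  have h2 : s'.arr (50 + 2 * a' + T') = s.arr (50 + 2 * a' + T') := by
    refine hf.2 _ (by omega) ?_ (by omega)
    intro h
    apply hne
    ext <;> simp <;> omega
  unfold BaseOK
  rw [h1, h2]
  exact h

/-- A list of pairs. -/
theorem pairs_ok (hI : S_INI) (hS : S_SWE) : ∀ L : List (ℕ × ℕ), (∀ p ∈ L, p.1 ≤ 2 ∧ p.2 ≤ 1) →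
    ∃ (c : Cm) (C : ℕ), ∀ (n : ℕ) (I ord par : ℕ → ℕ) (W j : ℕ) (s : S),
    Dat n I ord par → C * (n + 1) ≤ W → Ctx n I ord par s → 2 ^ j ≤ n → s.var 1 = 2 ^ j →
    s.var 2 = j → (∀ v < n, sz n par v < 2 ^ j → TabOK n par s v) →
    Ht (64 * (n + 1)) W c s (C * work n I ord par j)
      (fun s' => Frame0 s s' ∧ ∀ p ∈ L, ∀ v ∈ clsL n ord par j, BaseOK n I par p.1 p.2 s' v) := by
  intro L
  induction L with
  | nil =>
    intro _
    refine ⟨.skip, 0, ?_⟩
    intro n I ord par W j s hD hW hC hj h1' h2' hT'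
    rw [Nat.zero_mul]
    exact Ht.skip ⟨Frame0.refl s, by simp⟩
  | cons p L ih =>
    intro hL
    obtain ⟨hp1, hp2⟩ := hL p (by simp)
    obtain ⟨c1, C1, h1⟩ := ih (fun p' hp' => hL p' (by simp [hp']))
    obtain ⟨c2, C2, h2⟩ := pair_ok hI hS p.1 hp1 p.2 hp2
    refine ⟨.seq c1 c2, C1 + C2, ?_⟩
    intro n I ord par W j s hD hW hC hj h1' h2' hT'
    have hW1 : C1 * (n + 1) ≤ W := by nlinarith
    have hW2 : C2 * (n + 1) ≤ W := by nlinarith
    rw [Nat.add_mul]
    apply Ht.seq
    refine (h1 n I ord par W j s hD hW1 hC hj h1' h2' hT').mono le_rfl ?_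
    rintro s1 ⟨f1, b1⟩
    refine (h2 n I ord par W j s1 hD hW2 (ctx_frame f1 hC) hj ?_ ?_ ?_).mono le_rfl ?_
    · rw [f1.1 1 (by decide)]; exact h1'
    · rw [f1.1 2 (by decide)]; exact h2'
    · intro v hv hs
      exact tab_frame f1 (hT' v hv hs)
    rintro s2 ⟨f2, b2⟩
    refine ⟨f1.trans (Frame0.of hp1 hp2 f2), fun p' hp' v hv => ?_⟩
    by_cases hpp : p' = p
    · rw [hpp]; exact b2 v hv
    · have hp'' : p' ∈ L := by
        rcases List.mem_cons.1 hp' with h | h
        · exact absurd h hpp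
        · exact h
      obtain ⟨k1, k2⟩ := hL p' hp'
      exact base_frame hp1 hp2 k1 k2 hpp f2 (b1 p' hp'' v hv)

/-- The six pairs. -/
theorem six_ok (hI : S_INI) (hS : S_SWE) :
    ∃ (c : Cm) (C : ℕ), ∀ (n : ℕ) (I ord par : ℕ → ℕ) (W j : ℕ) (s : S),
    Dat n I ord par → C * (n + 1) ≤ W → Ctx n I ord par s → 2 ^ j ≤ n → s.var 1 = 2 ^ j →
    s.var 2 = j → (∀ v < n, sz n par v < 2 ^ j → TabOK n par s v) →
    Ht (64 * (n + 1)) W c s (C * work n I ord par j)
      (fun s' => Frame0 s s' ∧ ∀ v ∈ clsL n ord par j, ∀ a ≤ 2, ∀ T ≤ 1,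
        BaseOK n I par a T s' v) := by
  obtain ⟨c, C, h⟩ := pairs_ok hI hS [(0, 0), (0, 1), (1, 0), (1, 1), (2, 0), (2, 1)]
    (by simp)
  refine ⟨c, C, ?_⟩
  intro n I ord par W j s hD hW hC hj h1' h2' hT'
  refine (h n I ord par W j s hD hW hC hj h1' h2' hT').mono le_rfl ?_
  rintro s1 ⟨f1, b1⟩
  refine ⟨f1, fun v hv a ha T hT => ?_⟩
  refine b1 (a, T) ?_ v hv
  interval_cases a <;> interval_cases T <;> simp

/-- The frame of the tables. -/
structure Frame1 (s s' : S) : Prop where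
  var : ∀ x < 3, s'.var x = s.var x
  arr : ∀ q, ¬ (10 ≤ q ∧ q ≤ 38) → ¬ (70 ≤ q ∧ q < 80) → s'.arr q = s.arr q

theorem ctx_frame1 {n : ℕ} {I ord par : ℕ → ℕ} {s s' : S} (hf : Frame1 s s')
    (h : Ctx n I ord par s) : Ctx n I ord par s' := by
  constructor
  · rw [hf.var 0 (by decide)]; exact h.v0
  · rw [hf.arr 0 (by decide) (by decide)]; exact h.a0
  · rw [hf.arr 1 (by decide) (by decide)]; exact h.a1
  · rw [hf.arr 2 (by decide) (by decide)]; exact h.a2
  · rw [hf.arr 3 (by decide) (by decide)]; exact h.a3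
  · rw [hf.arr 6 (by decide) (by decide), hf.arr 7 (by decide) (by decide)]; exact h.cls

theorem mem_cls {n : ℕ} {ord par : ℕ → ℕ} (h : Rooting n ord par) {j v : ℕ} :
    v ∈ clsL n ord par j ↔ v < n ∧ 2 ^ j ≤ sz n par v ∧ sz n par v < 2 ^ (j + 1) := by
  obtain ⟨idx, h1, h2⟩ := h.exists_idx
  unfold clsL
  rw [List.mem_filter, List.mem_map]
  simp only [List.mem_range, decide_eq_true_eq]
  constructor
  · rintro ⟨⟨i, hi, rfl⟩, h3⟩
    exact ⟨h.ord_lt _ (by omega), h3⟩
  · rintro ⟨hv, h3⟩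
    refine ⟨⟨n - 1 - idx v, ?_, ?_⟩, h3⟩
    · have := (h1 v hv).1; omega
    · have := (h1 v hv).1
      rw [show n - 1 - (n - 1 - idx v) = idx v by omega]
      exact (h1 v hv).2

/-- The list of a class is ordered by decreasing index. -/
theorem cls_sorted {n : ℕ} {ord par idx : ℕ → ℕ} (h : Rooting n ord par)
    (h2 : ∀ i < n, idx (ord i) = i) (j : ℕ) :
    (clsL n ord par j).Pairwise (fun u v => idx v < idx u) := by
  unfold clsL
  apply List.Pairwise.filter
  rw [List.pairwise_map]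
  apply List.Pairwise.imp_of_mem ?_ List.pairwise_lt_range
  intro a b ha hb hab
  rw [List.mem_range] at ha hb
  rw [h2 _ (by omega), h2 _ (by omega)]
  omega

/-- Loop over the list of the class. -/
def cL (cD : Cm) : Cm := .loop (.c 0) (.v 4)
  (.seq (.set 3 (.sub (.v 4) (.c 1))) (.seq cD (.set 4 (.get 7 (.v 3)))))

theorem list_ok {cD : Cm} {C n : ℕ} {I ord par : ℕ → ℕ} {W j : ℕ} (hD : Dat n I ord par)
    (hW2 : 2 * (n + 1) ≤ W) (hSZ : S_SIZ)
    (h : ∀ (v : ℕ) (s : S), Ctx n I ord par s → v < n → s.var 3 = v →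
      (∀ c ∈ chl I par v, TabOK n par s c) → (∀ a ≤ 2, ∀ T ≤ 1, BaseOK n I par a T s v) →
      Ht (64 * (n + 1)) W cD s (C * ((adjL I v).length + 1)) (fun s' =>
      (∀ x < 10, s'.var x = s.var x) ∧
      (∀ q, ¬ (10 ≤ q ∧ q ≤ 38) → ¬ (70 ≤ q ∧ q < 80) → s'.arr q = s.arr q) ∧
      (∀ q u, u ≠ v → 10 ≤ q → q ≤ 38 → s'.arr q u = s.arr q u) ∧ TabOK n par s' v)) :
    ∀ (l2 l1 : List ℕ) (s : S), clsL n ord par j = l1 ++ l2 → Ctx n I ord par s →
      Chain (s.arr 7) (s.var 4) l2 → (∀ v < n, sz n par v < 2 ^ j → TabOK n par s v) →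
      (∀ v ∈ l1, TabOK n par s v) →
      (∀ v ∈ clsL n ord par j, ∀ a ≤ 2, ∀ T ≤ 1, BaseOK n I par a T s v) →
      Ht (64 * (n + 1)) W (cL cD) s
        ((C + 3) * (l2.map (fun v => (adjL I v).length + 1)).sum + 1)
        (fun s' => Frame1 s s' ∧ (∀ v < n, sz n par v < 2 ^ j → TabOK n par s' v) ∧
          ∀ v ∈ clsL n ord par j, TabOK n par s' v) := by
  obtain ⟨idx, i1, i2⟩ := hD.root.exists_idx
  obtain ⟨z1, z2, z3, z4, -⟩ := hSZ n ord par hD.root
  intro l2
  induction l2 with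
  | nil =>
    intro l1 s hl hC hch hT1 hT2 hB
    have h4 : s.var 4 = 0 := hch
    simp only [List.map_nil, List.sum_nil, Nat.mul_zero, Nat.zero_add]
    refine Ht_loop_end (by simp only [Ex.ok]; omega) (by simp only [Ex.ok]; omega)
      (by simp only [Ex.ev]; omega) ⟨⟨fun _ _ => rfl, fun _ _ _ => rfl⟩, hT1, ?_⟩
    rw [hl, List.append_nil]; exact hT2
  | cons v l2 ih =>
    intro l1 s hl hC hch hT1 hT2 hB
    have hvm : v ∈ clsL n ord par j := by rw [hl]; simp
    obtain ⟨hvn, hv1, hv2⟩ := (mem_cls hD.root).1 hvm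
    obtain ⟨h4, hch'⟩ := hch
    have e : (C + 3) * (List.map (fun v => (adjL I v).length + 1) (v :: l2)).sum + 1 =
        ((C + 3) * ((adjL I v).length + 1) - 1) +
          ((C + 3) * (List.map (fun v => (adjL I v).length + 1) l2).sum + 1) + 1 := by
      rw [List.map_cons, List.sum_cons, Nat.mul_add]
      have : 1 ≤ (C + 3) * ((adjL I v).length + 1) := by nlinarith
      omega
    rw [e]
    refine Ht_loop_step (by simp only [Ex.ok]; omega) (by simp only [Ex.ok]; omega)
      (by simp only [Ex.ev]; omega) ?_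
    refine Ht.mono (T := 1 + (C * ((adjL I v).length + 1) + 1)) ?_ ?_ (fun _ h => h)
    · apply Ht.seq
      apply Ht.set
      · simp only [Ex.ok]; omega
      have f1 : (Ex.sub (.v 4) (.c 1)).ev s = v := by simp only [Ex.ev]; omega
      rw [f1]
      apply Ht.seq
      have hC1 : Ctx n I ord par (s.setV 3 v) :=
        ⟨by rw [var_ne (by decide)]; exact hC.v0, hC.a0, hC.a1, hC.a2, hC.a3, hC.cls⟩
      refine (h v (s.setV 3 v) hC1 hvn (var_self _ _ _) ?_ ?_).mono le_rfl ?_
      · intro c hc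
        have hc' := (hD.mem v hvn c).1 hc
        have hck : c ∈ kids n par v := mem_kids.2 hc'
        by_cases hs : sz n par c < 2 ^ j
        · exact hT1 c hc'.1 hs
        · have hlt := z4 v hvn c hck
          have hcm : c ∈ clsL n ord par j :=
            (mem_cls hD.root).2 ⟨hc'.1, by omega, by omega⟩
          have hidx := (hD.root.par_idx i1 i2 hc'.1 (Or.inl (by rw [hc'.2]; exact hvn))).2.2
          rw [hc'.2] at hidx
          have hsort := cls_sorted hD.root i2 j
          rw [hl] at hcm hsort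
          rw [List.pairwise_append] at hsort
          rcases List.mem_append.1 hcm with hm | hm
          · exact hT2 c hm
          · exfalso
            rcases List.mem_cons.1 hm with hm | hm
            · rw [hm] at hidx; omega
            · have := (List.pairwise_cons.1 hsort.2.1).1 c hm
              omega
      · exact hB v hvm
      rintro s1 ⟨g1, g2, g3, g4⟩
      have k4 : s1.var 4 = v + 1 := by
        rw [g1 4 (by decide), var_ne (by decide), h4]
      have k3 : s1.var 3 = v := by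
        rw [g1 3 (by decide), var_self]
      have k7 : s1.arr 7 = s.arr 7 := by
        rw [g2 7 (by decide) (by decide)]; rfl
      have hnx : s.arr 7 v ≤ n := by
        cases l2 with
        | nil => have : s.arr 7 v = 0 := hch'
                 omega
        | cons c l3 =>
          have : s.arr 7 v = c + 1 := hch'.1
          have hcm : c ∈ clsL n ord par j := by rw [hl]; simp
          have := ((mem_cls hD.root).1 hcm).1
          omega
      apply Ht.set
      · simp only [Ex.ok, Ex.ev, k3, k7]; omega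
      have f2 : (Ex.get 7 (.v 3)).ev s1 = s.arr 7 v := by
        simp only [Ex.ev, k3, k7]
      rw [f2]
      have hF : Frame1 s (s1.setV 4 (s.arr 7 v)) := by
        constructor
        · intro x hx
          rw [var_ne (by omega), g1 x (by omega), var_ne (by omega)]
        · intro q hq hq'
          rw [arr_set, g2 q hq hq']; rfl
      have hTT : ∀ u, u ≠ v → TabOK n par s u → TabOK n par (s1.setV 4 (s.arr 7 v)) u := by
        intro u hu hTu a ha b hb
        rw [arr_set, g3 _ u hu (by omega) (by omega), g3 _ u hu (by omega) (by omega),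
          g3 _ u hu (by omega) (by omega), arr_set]
        exact hTu a ha b hb
      have hTT' : ∀ u, TabOK n par s u → TabOK n par (s1.setV 4 (s.arr 7 v)) u := by
        intro u hu
        by_cases huv : u = v
        · rw [huv]; exact g4
        · exact hTT u huv hu
      have hcl : clsL n ord par j = (l1 ++ [v]) ++ l2 := by rw [hl]; simp
      refine (ih (l1 ++ [v]) (s1.setV 4 (s.arr 7 v)) hcl (ctx_frame1 hF hC) ?_ ?_ ?_ ?_).mono
        le_rfl ?_
      · rw [arr_set, k7, var_self]; exact hch'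
      · intro u hu hs
        exact hTT' u (hT1 u hu hs)
      · intro u hu
        rcases List.mem_append.1 hu with hu | hu
        · exact hTT' u (hT2 u hu)
        · rw [List.mem_singleton] at hu
          rw [hu]; exact g4
      · intro u hu a ha T hT
        have := hB u hu a ha T hT
        unfold BaseOK
        rw [hF.arr (40 + 2 * a + T) (by omega) (by omega),
          hF.arr (50 + 2 * a + T) (by omega) (by omega)]
        exact this
      · rintro s2 ⟨w1, w2, w3⟩
        refine ⟨⟨fun x hx => ?_, fun q hq hq' => ?_⟩, w2, w3⟩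
        · rw [w1.var x hx, hF.var x hx]
        · rw [w1.arr q hq hq', hF.arr q hq hq']
    · have h1 : (C + 3) * ((adjL I v).length + 1) =
          C * ((adjL I v).length + 1) + 3 * ((adjL I v).length + 1) := by ring
      rw [h1]
      omega

theorem sum_cls (sz' f : ℕ → ℕ) (M : ℕ) : ∀ L : List ℕ,
    ∑ k ∈ Finset.range M, ((L.filter (fun v => decide (2 ^ k ≤ sz' v ∧ sz' v < 2 ^ (k + 1)))).map
      f).sum ≤ (L.map f).sum := by
  intro L
  induction L with
  | nil => simp
  | cons v L ih =>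
    have h1 : ∀ k, (((v :: L).filter (fun v => decide (2 ^ k ≤ sz' v ∧ sz' v < 2 ^ (k + 1)))).map
      f).sum = (if 2 ^ k ≤ sz' v ∧ sz' v < 2 ^ (k + 1) then f v else 0) +
        ((L.filter (fun v => decide (2 ^ k ≤ sz' v ∧ sz' v < 2 ^ (k + 1)))).map f).sum := by
      intro k
      rw [List.filter_cons]
      by_cases h : 2 ^ k ≤ sz' v ∧ sz' v < 2 ^ (k + 1)
      · simp [h]
      · simp [h]
    rw [Finset.sum_congr rfl (fun k _ => h1 k), Finset.sum_add_distrib, List.map_cons,
      List.sum_cons]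
    refine Nat.add_le_add ?_ ih
    rw [← Finset.sum_filter]
    have hc : ((Finset.range M).filter (fun k => 2 ^ k ≤ sz' v ∧ sz' v < 2 ^ (k + 1))).card ≤ 1 := by
      rw [Finset.card_le_one]
      intro a ha b hb
      simp only [Finset.mem_filter] at ha hb
      by_contra hne
      rcases Nat.lt_or_gt_of_ne hne with h | h
      · have : (2 : ℕ) ^ (a + 1) ≤ 2 ^ b := Nat.pow_le_pow_right (by norm_num) h
        omega
      · have : (2 : ℕ) ^ (b + 1) ≤ 2 ^ a := Nat.pow_le_pow_right (by norm_num) h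
        omega
    rw [Finset.sum_const, smul_eq_mul]
    nlinarith [Nat.zero_le (f v)]

theorem sum_ord {n : ℕ} {ord par : ℕ → ℕ} (h : Rooting n ord par) (f : ℕ → ℕ) :
    (((List.range n).map (fun i => ord (n - 1 - i))).map f).sum = ∑ v ∈ Finset.range n, f v := by
  obtain ⟨idx, h1, h2⟩ := h.exists_idx
  rw [List.map_map]
  have e : (List.map (f ∘ fun i => ord (n - 1 - i)) (List.range n)).sum =
      ∑ i ∈ Finset.range n, f (ord (n - 1 - i)) := by
    rw [Finset.sum_range]
    rw [← List.sum_ofFn]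
    congr 1
    rw [List.ofFn_eq_map, ← List.map_coe_finRange_eq_range, List.map_map]
    rfl
  rw [e]
  refine Finset.sum_bij' (fun i _ => ord (n - 1 - i)) (fun v _ => n - 1 - idx v) ?_ ?_ ?_ ?_ ?_
  · intro i hi
    rw [Finset.mem_range] at hi ⊢
    exact h.ord_lt _ (by omega)
  · intro v hv
    rw [Finset.mem_range] at hv ⊢
    have := (h1 v hv).1; omega
  · intro i hi
    rw [Finset.mem_range] at hi
    rw [h2 _ (by omega)]; omega
  · intro v hv
    rw [Finset.mem_range] at hv
    have := (h1 v hv).1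
    rw [show n - 1 - (n - 1 - idx v) = idx v by omega]
    exact (h1 v hv).2
  · intro i _; rfl

theorem sum_adj {n : ℕ} {I ord par : ℕ → ℕ} (hD : Dat n I ord par) :
    ∑ v ∈ Finset.range n, ((adjL I v).length + 1) ≤ 3 * n := by
  have hn := hD.root.pos
  have key : ∀ m ≤ n, ∑ v ∈ Finset.range m, ((adjL I v).length + 1) + I 0 = I m + m := by
    intro m
    induction m with
    | zero => intro _; simp
    | succ m ih =>
      intro hm
      rw [Finset.sum_range_succ]
      have h1 := ih (by omega)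
      have h2 := hD.mono m (by omega)
      have h3 : (adjL I m).length = I (m + 1) - I m := by simp [adjL]
      omega
  have := key n le_rfl
  have h1 := hD.first
  have h2 := hD.last
  omega

theorem work_sum {n : ℕ} {I ord par : ℕ → ℕ} (hD : Dat n I ord par) (M : ℕ) (hM : 2 ^ M ≤ 2 * n) :
    ∑ k ∈ Finset.range M, work n I ord par k ≤ 5 * n := by
  unfold work
  rw [Finset.sum_add_distrib]
  have h1 : ∑ k ∈ Finset.range M, 2 ^ k + 1 = 2 ^ M := by
    have := Nat.geomSum_eq (m := 2) (by norm_num) M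
    have h2 : 1 ≤ 2 ^ M := Nat.one_le_two_pow
    rw [this]; simp; omega
  have h2 := sum_cls (sz n par) (fun v => (adjL I v).length + 1) M
    ((List.range n).map (fun i => ord (n - 1 - i)))
  rw [sum_ord hD.root] at h2
  have h3 := sum_adj hD
  have h4 : ∑ k ∈ Finset.range M, ((clsL n ord par k).map
      (fun v => (adjL I v).length + 1)).sum ≤ 3 * n := h2.trans h3
  omega

/-- The main loop. -/
def cM (c6 cD : Cm) : Cm := .loop (.v 1) (.add (.v 0) (.c 1))
  (.seq c6 (.seq (.set 4 (.get 6 (.v 2))) (.seq (cL cD)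
    (.seq (.set 1 (.add (.v 1) (.v 1))) (.set 2 (.add (.v 2) (.c 1)))))))

structure IM (n : ℕ) (I ord par : ℕ → ℕ) (k : ℕ) (s : S) : Prop where
  ctx : Ctx n I ord par s
  v1 : s.var 1 = 2 ^ k
  v2 : s.var 2 = k
  tab : ∀ v < n, sz n par v < 2 ^ k → TabOK n par s v

theorem s_PH4 (hINI : S_INI) (hSWE : S_SWE) (hDPV : S_DPV) (hSIZ : S_SIZ) : S_PH4 := by
  obtain ⟨c6, C6, h6⟩ := six_ok hINI hSWE
  obtain ⟨cD, CD, hDP⟩ := hDPV
  refine ⟨.seq (.set 1 (.c 1)) (.seq (.set 2 (.c 0)) (cM c6 cD)), 5 * (C6 + CD + 8) + 5, ?_⟩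
  intro n I ord par W s hD hW hC
  have hn := hD.root.pos
  have hW6 : C6 * (n + 1) ≤ W := by nlinarith
  have hWD : CD * (n + 1) ≤ W := by nlinarith
  have hW0 : 20 * (n + 1) ≤ W := by nlinarith
  set M := Nat.log 2 n + 1 with hM
  have hM1 : n < 2 ^ M := Nat.lt_pow_succ_log_self (by norm_num) n
  have hM2 : 2 ^ M ≤ 2 * n := by
    have := Nat.pow_log_le_self 2 (by omega : n ≠ 0)
    rw [hM, pow_succ]; omega
  have hkM : ∀ k < M, 2 ^ k ≤ n := by
    intro k hk
    have h1 : (2 : ℕ) ^ k ≤ 2 ^ (Nat.log 2 n) := Nat.pow_le_pow_right (by norm_num) (by omega)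
    exact h1.trans (Nat.pow_log_le_self 2 (by omega : n ≠ 0))
  have hlk : ∀ k, k < 2 ^ k := fun k => Nat.lt_two_pow_self
  have hloop := Ht.loop (N := 64 * (n + 1)) (W := W) (a := .v 1) (b := .add (.v 0) (.c 1))
    (c := .seq c6 (.seq (.set 4 (.get 6 (.v 2))) (.seq (cL cD)
      (.seq (.set 1 (.add (.v 1) (.v 1))) (.set 2 (.add (.v 2) (.c 1)))))))
    (Q := fun s' => s'.var 0 = n ∧ TabOK n par s' 0) M (IM n I ord par)
    (fun k => (C6 + CD + 7) * work n I ord par k) ?_ ?_ (s := (s.setV 1 1).setV 2 0) ?_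
  · refine Ht.mono (T := 1 + (1 + (∑ k ∈ Finset.range M,
      ((C6 + CD + 7) * work n I ord par k + 1) + 1))) ?_ ?_ (fun _ h => h)
    · apply Ht.seq
      apply Ht.set (by simp only [Ex.ok]; omega)
      apply Ht.seq
      apply Ht.set (by simp only [Ex.ok]; omega)
      exact hloop
    · have h1 : ∑ k ∈ Finset.range M, ((C6 + CD + 7) * work n I ord par k + 1) ≤
          ∑ k ∈ Finset.range M, ((C6 + CD + 8) * work n I ord par k) := by
        apply Finset.sum_le_sum
        intro k _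
        have : 1 ≤ work n I ord par k := by
          unfold work
          have : 1 ≤ 2 ^ k := Nat.one_le_two_pow
          omega
        nlinarith
      rw [← Finset.mul_sum] at h1
      have h2 := Nat.mul_le_mul_left (C6 + CD + 8) (work_sum hD M hM2)
      nlinarith
  · intro k hk s1 hI
    have hkn := hkM k hk
    have hlk' := hlk k
    have e0 := hI.ctx.v0
    have e1 := hI.v1
    have e2 := hI.v2
    refine ⟨by simp only [Ex.ok]; omega, by simp only [Ex.ok, Ex.ev]; omega,
      by simp only [Ex.ev]; omega, ?_⟩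
    have hwk : 1 ≤ work n I ord par k := by
      unfold work
      omega
    have hls : ((clsL n ord par k).map (fun v => (adjL I v).length + 1)).sum ≤
        work n I ord par k := by
      unfold work
      omega
    refine Ht.mono (T := C6 * work n I ord par k + (1 + (((CD + 3) *
      ((clsL n ord par k).map (fun v => (adjL I v).length + 1)).sum + 1) + (1 + 1))))
      ?_ ?_ (fun _ h => h)
    · apply Ht.seq
      refine (h6 n I ord par W k s1 hD hW6 hI.ctx hkn e1 e2 hI.tab).mono le_rfl ?_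
      rintro s2 ⟨f2, b2⟩
      have hC2 := ctx_frame f2 hI.ctx
      have g0 : s2.var 0 = n := hC2.v0
      have g1 : s2.var 1 = 2 ^ k := by rw [f2.1 1 (by decide), e1]
      have g2 : s2.var 2 = k := by rw [f2.1 2 (by decide), e2]
      have g6 : s2.arr 6 k ≤ n := by
        have := hC2.cls k hkn
        cases hcl : clsL n ord par k with
        | nil =>
          rw [hcl] at this
          have h' : s2.arr 6 k = 0 := this
          omega
        | cons c l =>
          rw [hcl] at this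
          have h' : s2.arr 6 k = c + 1 := this.1
          have hcm : c ∈ clsL n ord par k := by rw [hcl]; simp
          have := ((mem_cls hD.root).1 hcm).1
          omega
      apply Ht.seq
      apply Ht.set
      · simp only [Ex.ok, Ex.ev, g2]; omega
      have f1 : (Ex.get 6 (.v 2)).ev s2 = s2.arr 6 k := by simp only [Ex.ev, g2]
      rw [f1]
      apply Ht.seq
      have hC3 : Ctx n I ord par (s2.setV 4 (s2.arr 6 k)) :=
        ⟨by rw [var_ne (by decide)]; exact hC2.v0, hC2.a0, hC2.a1, hC2.a2, hC2.a3, hC2.cls⟩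
      refine (list_ok hD (by omega) hSIZ (fun v s hc hv h3 ht hb =>
        hDP n I ord par W v s hD hWD hc hv h3 ht hb) (clsL n ord par k) [] _ rfl hC3 ?_ ?_ ?_ ?_
        ).mono le_rfl ?_
      · rw [arr_set, var_self]; exact hC2.cls k hkn
      · intro v hv hs
        exact tab_frame f2 (hI.tab v hv hs)
      · intro v hv; simp at hv
      · exact b2
      rintro s3 ⟨w1, w2, w3⟩
      have k0 : s3.var 0 = n := by rw [w1.var 0 (by decide), var_ne (by decide), g0]
      have k1 : s3.var 1 = 2 ^ k := by rw [w1.var 1 (by decide), var_ne (by decide), g1]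
      have k2 : s3.var 2 = k := by rw [w1.var 2 (by decide), var_ne (by decide), g2]
      have hC4 := ctx_frame1 w1 hC3
      apply Ht.seq
      apply Ht.set
      · simp only [Ex.ok, Ex.ev]; omega
      have f2' : (Ex.add (.v 1) (.v 1)).ev s3 = 2 ^ (k + 1) := by
        simp only [Ex.ev, k1]; ring
      rw [f2']
      apply Ht.set
      · simp only [Ex.ok, Ex.ev, var_ne (by decide : (2 : ℕ) ≠ 1)]; omega
      have f3 : (Ex.add (.v 2) (.c 1)).ev (s3.setV 1 (2 ^ (k + 1))) = k + 1 := by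
        simp only [Ex.ev, var_ne (by decide : (2 : ℕ) ≠ 1), k2]
      rw [f3]
      refine ⟨⟨?_, hC4.a0, hC4.a1, hC4.a2, hC4.a3, hC4.cls⟩, ?_, ?_, ?_⟩
      · rw [var_ne (by decide), var_ne (by decide), k0]
      · rw [var_ne (by decide), var_self]
      · rw [var_self]
      · intro v hv hs
        by_cases hs' : sz n par v < 2 ^ k
        · exact w2 v hv hs'
        · exact w3 v ((mem_cls hD.root).2 ⟨hv, by omega, hs⟩)
    · nlinarith
  · intro s1 hI
    have e0 := hI.ctx.v0
    have e1 := hI.v1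
    refine ⟨by simp only [Ex.ok]; omega, by simp only [Ex.ok, Ex.ev]; omega,
      by simp only [Ex.ev]; omega, e0, ?_⟩
    obtain ⟨z1, z2, z3, z4, -⟩ := hSIZ n ord par hD.root
    exact hI.tab 0 hn (by rw [z2]; exact hM1)
  · refine ⟨⟨?_, hC.a0, hC.a1, hC.a2, hC.a3, hC.cls⟩, ?_, ?_, ?_⟩
    · rw [var_ne (by decide), var_ne (by decide)]; exact hC.v0
    · rw [var_ne (by decide), var_self]; simp
    · rw [var_self]
    · intro v hv hs
      obtain ⟨z1, z2, z3, z4, -⟩ := hSIZ n ord par hD.root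
      have := (z3 v hv).1
      simp at hs
      omega

end Pool.Agent.L7h53.UM

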