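import Mathlib
import Pool.Agent.L7h11.UM.Stm
import Pool.Agent.L7h53.UM.Bas

/-!
# The output phase
-/

set_option autoImplicit false

namespace Pool.Agent.L7h53.UM

open Pool.Agent.L7h11.UM

/-- `var 10 := max (var 10) (arr q 0)`. -/
def mx (q : ℕ) : Cm := .set 10 (.ifLt (.v 10) (.get q (.c 0)) (.get q (.c 0)) (.v 10))

theorem ht_mx {N W q : ℕ} {s : S} {Q : S → Prop} (hN : 0 < N) (hW : 0 < W) (h1 : s.var 10 < W)
    (h2 : s.arr q 0 < W) (h : Q (s.setV 10 (max (s.var 10) (s.arr q 0)))) :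
    Ht N W (mx q) s 1 Q := by
  apply Ht.set
  · simp [Ex.ok, Ex.ev, hN, hW, h1, h2]
  · have e : (Ex.ifLt (.v 10) (.get q (.c 0)) (.get q (.c 0)) (.v 10)).ev s
        = max (s.var 10) (s.arr q 0) := by
      rcases lt_or_ge (s.var 10) (s.arr q 0) with h' | h'
      · simp [Ex.ev, h', max_eq_right h'.le]
      · simp [Ex.ev, not_lt.2 h', max_eq_left h']
    rw [e]; exact h

theorem s_PH5 : S_PH5 := by
  refine ⟨.seq (.set 10 (.get 11 (.c 0))) (.seq (mx 14) (.seq (mx 17) (.seq (mx 21) (.seq (mx 24)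
    (.seq (mx 27) (.set 0 (.sub (.sub (.v 10) (.c 1)) (.v 0)))))))), 10, ?_⟩
  intro n par W s hn hW h0 hT hB
  have hN : 0 < 64 * (n + 1) := by omega
  have hW0 : 0 < W := by omega
  have p0 := (hT 0 (by omega) 1 (by omega)).1
  have p1 := (hT 1 (by omega) 1 (by omega)).1
  have p2 := (hT 2 (by omega) 1 (by omega)).1
  have q0 := (hT 0 (by omega) 1 (by omega)).2.1
  have q1 := (hT 1 (by omega) 1 (by omega)).2.1
  have q2 := (hT 2 (by omega) 1 (by omega)).2.1
  norm_num at p0 p1 p2 q0 q1 q2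
  have b0 := (hB 0 0 1).1
  have b1 := (hB 0 1 1).1
  have b2 := (hB 0 2 1).1
  have c0 := (hB 0 0 1).2
  have c1 := (hB 0 1 1).2
  have c2 := (hB 0 2 1).2
  rw [← p0] at b0
  rw [← p1] at b1
  rw [← p2] at b2
  rw [← q0] at c0
  rw [← q1] at c1
  rw [← q2] at c2
  have hsup : ((Finset.range 3).sup fun a => max (tabP n par 0 a 1) (tabQ n par 0 0 a 1)) =
      max (max (max (max (max (s.arr 11 0) (s.arr 14 0)) (s.arr 17 0)) (s.arr 21 0))
        (s.arr 24 0)) (s.arr 27 0) := by
    rw [p0, p1, p2, q0, q1, q2]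
    simp only [Finset.range_add_one, Finset.range_zero, Finset.sup_insert, Finset.sup_empty,
      Nat.bot_eq_zero]
    omega
  rw [hsup]
  refine Ht.mono (T := 1 + (1 + (1 + (1 + (1 + (1 + 1)))))) ?_ (by norm_num) (fun _ h => h)
  apply Ht.seq
  apply Ht.set
  · simp [Ex.ok, Ex.ev]; omega
  have e1 : (Ex.get 11 (.c 0)).ev s = s.arr 11 0 := rfl
  rw [e1]
  apply Ht.seq
  apply ht_mx hN hW0 (by simp only [var_self]; omega) (by simp only [arr_set]; omega)
  simp only [var_self, arr_set]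
  apply Ht.seq
  apply ht_mx hN hW0 (by simp only [var_self]; omega) (by simp only [arr_set]; omega)
  simp only [var_self, arr_set]
  apply Ht.seq
  apply ht_mx hN hW0 (by simp only [var_self]; omega) (by simp only [arr_set]; omega)
  simp only [var_self, arr_set]
  apply Ht.seq
  apply ht_mx hN hW0 (by simp only [var_self]; omega) (by simp only [arr_set]; omega)
  simp only [var_self, arr_set]
  apply Ht.seq
  apply ht_mx hN hW0 (by simp only [var_self]; omega) (by simp only [arr_set]; omega)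
  simp only [var_self, arr_set]
  apply Ht.set
  · simp only [Ex.ok, var_self]
    refine ⟨⟨by omega, by omega⟩, ?_⟩
    simp only [var_ne (by decide : (0 : ℕ) ≠ 10)]
    omega
  · simp only [Ex.ev, var_self, var_ne (by decide : (0 : ℕ) ≠ 10), h0]

end Pool.Agent.L7h53.UM

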